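import Pool.Agent.Lib.GBC.C.Alg
import Pool.Agent.Lib.GBC.Q.Base

/-!
Module C.ActM of GBC. The action of `(h, s)` preserves the sizes of the entries and the condition
`UndetG`.

PROOF (see `HYP/C/Act.lean`, `act_degP`, `act_undet`).
`act_degP`: `h i a ∈ M (nn i - nn a)` for all `i`, `a` (`UtM.low` for `a < i`; `1 ∈ M 0` for `a = i`,
`one_mem_M`; `0` for `i < a`), `G1 a b ∈ M (nn a + nn b + C)`, so by `mul_mem_M` (and `M_mono`, or
`convert`/`ring_nf` on the index) every summand of `(h G1 hᵀ) i j` is in `M (nn i + nn j + C)`; the same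
for `G2` with `2 m` more; `s ∈ M (2 m)`. The symmetries are those of `act_degP` there. `det`, `detC`:
`ut_congr_det`.
`act_undet`: reduction modulo `w` (`Matrix.map_mul`, `Matrix.transpose_map`), the image of `h` has
determinant `1` (`RingHom.map_det`, `ut_det`), `ut_congr_det` for the determinant (or
`Matrix.det_mul`), `det_congr_iff`, `det_shift_iff` of `HYP/C/Inv.lean`.
-/

set_option autoImplicit false

open Polynomial

namespace Pool.Agent.GBC

open Pool.Agent.BSDP Pool.Agent.BSDFF Pool.Agent.HYP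

variable {k K : Type} [Field k] [Field K] [Algebra k K] (G : Geo k K)

private theorem ActM_sum {ι : Type} (s : Finset ι) (f : ι → G.A) {y : ℤ}
    (h : ∀ i ∈ s, (f i : K) ∈ G.M y) : ((∑ i ∈ s, f i : G.A) : K) ∈ G.M y := by
  have e : ((∑ i ∈ s, f i : G.A) : K) = ∑ i ∈ s, (f i : K) := map_sum (algebraMap G.A K) f s
  rw [e]
  exact (G.M y).sum_mem h

private theorem ActM_mul {a b : G.A} {y y' z : ℤ} (ha : (a : K) ∈ G.M y) (hb : (b : K) ∈ G.M y')
    (hz : y + y' = z) : ((a * b : G.A) : K) ∈ G.M z := by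
  rw [← hz]
  exact Geo.mul_mem_M G ha hb

private theorem ActM_zero (y : ℤ) : ((0 : G.A) : K) ∈ G.M y := (G.M y).zero_mem

private theorem ActM_h {g : ℕ} {r : ℕ → ℕ} {h : Matrix (Fin (2 * g + 1)) (Fin (2 * g + 1)) G.A}
    (hh : UtM G (fh g r) h) (i j : Fin (2 * g + 1)) :
    (h i j : K) ∈ G.M (nn g r i - nn g r j) := by
  rcases lt_trichotomy i j with hij | hij | hij
  · rw [hh.up i j hij]
    exact ActM_zero G _
  · rw [hij, hh.diag]
    exact Geo.one_mem_M G (by rw [sub_self])
  · exact hh.low i j hij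

private theorem ActM_congr {g : ℕ} {r : ℕ → ℕ}
    {h : Matrix (Fin (2 * g + 1)) (Fin (2 * g + 1)) G.A}
    (hh : UtM G (fh g r) h) (c : ℤ) (G1 : Matrix (Fin (2 * g + 1)) (Fin (2 * g + 1)) G.A)
    (hG : ∀ i j, (G1 i j : K) ∈ G.M (nn g r i + nn g r j + c)) (i j : Fin (2 * g + 1)) :
    (((h * G1 * h.transpose) i j : G.A) : K) ∈ G.M (nn g r i + nn g r j + c) := by
  rw [Matrix.mul_apply]
  apply ActM_sum
  intro b _
  rw [Matrix.mul_apply, Matrix.transpose_apply]
  have h1 : ((∑ a, h i a * G1 a b : G.A) : K) ∈ G.M (nn g r i + nn g r b + c) := by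
    apply ActM_sum
    intro a _
    exact ActM_mul G (ActM_h G hh i a) (hG a b) (by ring)
  exact ActM_mul G h1 (ActM_h G hh j b) (by ring)

theorem act_degP {g m C : ℕ} {r : ℕ → ℕ}
    {G1 G2 h : Matrix (Fin (2 * g + 1)) (Fin (2 * g + 1)) G.A}
    (hG : DegP G g m C r G1 G2) (hh : UtM G (fh g r) h) {s : G.A} (hs : (s : K) ∈ G.M (2 * m)) :
    DegP G g m C r (h * G1 * h.transpose)
      (h * G2 * h.transpose - s • (h * G1 * h.transpose)) := by
  have e1 := ActM_congr G hh C G1 hG.d1
  have e2 := ActM_congr G hh (2 * m + C) G2 (fun i j => by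
    have h0 := hG.d2 i j
    have h1 : (2 * m + nn g r i + nn g r j + C : ℤ) = nn g r i + nn g r j + (2 * m + C) := by ring
    rwa [h1] at h0)
  have t1 : (h * G1 * h.transpose).transpose = h * G1 * h.transpose := by
    rw [Matrix.transpose_mul, Matrix.transpose_mul, Matrix.transpose_transpose, hG.s1,
      Matrix.mul_assoc]
  have hdet : (h * G1 * h.transpose).det = G1.det := ut_congr_det hh.toUt G1
  refine ⟨t1, ?_, e1, ?_, ?_, ?_⟩
  · rw [Matrix.transpose_sub, Matrix.transpose_smul, t1]
    congr 1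
    rw [Matrix.transpose_mul, Matrix.transpose_mul, Matrix.transpose_transpose, hG.s2,
      Matrix.mul_assoc]
  · intro i j
    have h1 : (2 * m + nn g r i + nn g r j + C : ℤ) = nn g r i + nn g r j + (2 * m + C) := by ring
    rw [h1, Matrix.sub_apply, Matrix.smul_apply, smul_eq_mul]
    exact (G.M _).sub_mem (e2 i j) (ActM_mul G hs (e1 i j) (by ring))
  · rw [hdet]
    exact hG.det
  · rw [hdet]
    exact hG.detC

theorem act_undet {n : ℕ} {G1 G2 h : Matrix (Fin n) (Fin n) G.A} (hh : Ut h) (s : G.A)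
    {V : Finset G.FP} (hu : UndetG G V G1 G2) :
    UndetG G V (h * G1 * h.transpose) (h * G2 * h.transpose - s • (h * G1 * h.transpose)) := by
  intro w hw
  have h1 : ∀ S : Matrix (Fin n) (Fin n) G.A,
      (h * S * h.transpose).map (G.res w) =
      h.map (G.res w) * S.map (G.res w) * (h.map (G.res w)).transpose := by
    intro S
    rw [Matrix.map_mul, Matrix.map_mul, Matrix.transpose_map]
  have h2 : (h * G2 * h.transpose - s • (h * G1 * h.transpose)).map (G.res w) =
      (h * G2 * h.transpose).map (G.res w) -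
        (G.res w s) • (h * G1 * h.transpose).map (G.res w) := by
    ext i j
    simp only [Matrix.map_apply, Matrix.sub_apply, Matrix.smul_apply, smul_eq_mul, map_sub, map_mul]
  have h0 : (h.map (G.res w)).det = 1 := by
    have e : (h.map (G.res w)).det = G.res w h.det := by
      rw [RingHom.map_det]; rfl
    rw [e, ut_det hh, map_one]
  have h3 : IsUnit (h.map (G.res w)).det := by
    rw [h0]
    exact isUnit_one
  constructor
  · rw [h1, Matrix.det_mul, Matrix.det_mul, Matrix.det_transpose, h0, one_mul, mul_one]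
    exact (hu w hw).1
  · rw [h2, det_shift_iff, h1, h1, det_congr_iff h3]
    exact (hu w hw).2

end Pool.Agent.GBC
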