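import Pool.Agent.Lib.GBC.C.Defs
import Pool.Agent.Lib.HYP.C.Inv
import Pool.Agent.Lib.HYP.C.Comm

/-!
Module C.Alg of GBC. The action of `(h, s)`, `h` lower unitriangular, `s` a scalar, on pairs of
matrices over a domain `R`: `(G1, G2) ↦ (h G1 hᵀ, h G2 hᵀ - s h G1 hᵀ)`.

ADAPTATION of `Pool/Agent/Lib/HYP/C/Act.lean` (there `R = k[X]`, `Uni (eh g r) h`, `Rep`); the proofs
below are the same with `k[X]` replaced by `R`, `RatFunc k` by `K`:
* `ut_det`: `uni_det`; `act_pen`: the same (`pen_shift`, `pen_congr`).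
* `act_inj₁`: the same; `coeff_shift` there: the coefficient of `x ^ (2 g)` of `f (x + s)` is
  `(2 g + 1) s`. (`pen (h G1 hᵀ) … = C det G1 * f (x + s)`, `det G1 = det G1'`, cancel `C det G1`.)
* `act_inj₂`: the same (`field_like` of `HYP/C/Comm.lean` over the field `K`).
-/

set_option autoImplicit false

open Polynomial

namespace Pool.Agent.GBC

open Pool.Agent.BSDP Pool.Agent.BSDFF Pool.Agent.HYP

variable {R : Type} [CommRing R]

theorem ut_det {n : ℕ} {h : Matrix (Fin n) (Fin n) R} (hh : Ut h) : h.det = 1 := by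
  rw [Matrix.det_of_isLowerTriangular h (by
    intro i j hij
    exact hh.up i j hij)]
  simp [hh.diag]

theorem ut_congr_det {n : ℕ} {h : Matrix (Fin n) (Fin n) R} (hh : Ut h)
    (G1 : Matrix (Fin n) (Fin n) R) : (h * G1 * h.transpose).det = G1.det := by
  rw [Matrix.det_mul, Matrix.det_mul, Matrix.det_transpose, ut_det hh]
  ring

theorem act_pen {n : ℕ} {h : Matrix (Fin n) (Fin n) R} (hh : Ut h)
    (G1 G2 : Matrix (Fin n) (Fin n) R) (s : R) :
    pen (h * G1 * h.transpose) (h * G2 * h.transpose - s • (h * G1 * h.transpose)) =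
      (pen G1 G2).comp (X + C s) := by
  rw [pen_shift, pen_congr, ut_det hh]
  simp

private theorem Alg_coeff_shift {g : ℕ} {f : R[X]} (hf : f.Monic)
    (hfd : f.natDegree = 2 * g + 1) (hft : f.coeff (2 * g) = 0) (s : R) :
    (f.comp (X + C s)).coeff (2 * g) = s * ((2 * g + 1 : ℕ) : R) := by
  cases subsingleton_or_nontrivial R with
  | inl hR => exact Subsingleton.elim _ _
  | inr hR =>
    have h1 : (f - X ^ (2 * g + 1)).degree < ((2 * g : ℕ) : WithBot ℕ) := by
      rw [degree_lt_iff_coeff_zero]
      intro j hj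
      rw [coeff_sub, coeff_X_pow]
      rcases Nat.lt_or_ge (2 * g + 1) j with h2 | h2
      · rw [coeff_eq_zero_of_natDegree_lt (by omega), if_neg (by omega), sub_zero]
      · rcases Nat.lt_or_ge (2 * g) j with h3 | h3
        · have h4 : j = 2 * g + 1 := by omega
          have h5 : f.coeff (2 * g + 1) = 1 := by
            rw [← hfd]
            exact hf.coeff_natDegree
          rw [h4, h5, if_pos rfl, sub_self]
        · have h4 : j = 2 * g := by omega
          rw [h4, hft, if_neg (by omega), sub_zero]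
    have h2 : f.comp (X + C s) =
        (X + C s) ^ (2 * g + 1) + (f - X ^ (2 * g + 1)).comp (X + C s) := by
      rw [sub_comp, X_pow_comp]
      ring
    have h3 : ((f - X ^ (2 * g + 1)).comp (X + C s)).coeff (2 * g) = 0 := by
      by_cases h0 : f - X ^ (2 * g + 1) = 0
      · rw [h0]; simp
      · apply coeff_eq_zero_of_natDegree_lt
        rw [degree_eq_natDegree h0] at h1
        have h6 : (f - X ^ (2 * g + 1)).natDegree < 2 * g := by exact_mod_cast h1
        refine lt_of_le_of_lt natDegree_comp_le ?_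
        rw [natDegree_X_add_C, mul_one]
        exact h6
    rw [h2, coeff_add, h3, add_zero, coeff_X_add_C_pow]
    have h4 : (2 * g + 1).choose (2 * g) = 2 * g + 1 := by
      rw [Nat.choose_succ_self_right]
    rw [h4]
    have h5 : 2 * g + 1 - 2 * g = 1 := by omega
    rw [h5, pow_one]

/-- the data determine `s` and `f` -/
theorem act_inj₁ [IsDomain R] {g : ℕ} (hn : ((2 * g + 1 : ℕ) : R) ≠ 0) {f f' : R[X]}
    (hf : f.Monic) (hfd : f.natDegree = 2 * g + 1) (hft : f.coeff (2 * g) = 0)
    (hf' : f'.Monic) (hfd' : f'.natDegree = 2 * g + 1) (hft' : f'.coeff (2 * g) = 0)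
    {G1 G2 G1' G2' h h' : Matrix (Fin (2 * g + 1)) (Fin (2 * g + 1)) R} {s s' : R}
    (hd : G1.det ≠ 0) (hG : pen G1 G2 = C G1.det * f) (hG' : pen G1' G2' = C G1'.det * f')
    (hh : Ut h) (hh' : Ut h')
    (h1 : h * G1 * h.transpose = h' * G1' * h'.transpose)
    (h2 : h * G2 * h.transpose - s • (h * G1 * h.transpose) =
      h' * G2' * h'.transpose - s' • (h' * G1' * h'.transpose)) :
    s = s' ∧ f = f' := by
  have p1 := act_pen hh G1 G2 s
  have p2 := act_pen hh' G1' G2' s'
  rw [h2, h1, p2, hG, hG'] at p1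
  have d1 : G1.det = G1'.det := by
    have e1 := ut_congr_det hh G1
    have e2 := ut_congr_det hh' G1'
    rw [← e1, ← e2, h1]
  rw [← d1, mul_comp, mul_comp, C_comp, C_comp] at p1
  have d3 : (C G1.det : R[X]) ≠ 0 := by rwa [Ne, C_eq_zero]
  have p3 : f'.comp (X + C s') = f.comp (X + C s) := mul_left_cancel₀ d3 p1
  have c1 := Alg_coeff_shift hf hfd hft s
  have c2 := Alg_coeff_shift hf' hfd' hft' s'
  rw [p3, c1] at c2
  have hs : s = s' := mul_right_cancel₀ hn c2
  refine ⟨hs, ?_⟩
  rw [hs] at p3
  have c3 := congrArg (fun F : R[X] => F.comp (X - C s')) p3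
  simp only [comp_assoc] at c3
  have c4 : (X + C s' : R[X]).comp (X - C s') = X := by simp
  rw [c4, comp_X, comp_X] at c3
  exact c3.symm

/-- the data determine `h` -/
theorem act_inj₂ {K : Type} [Field K] [Algebra R K]
    (hinj : Function.Injective (algebraMap R K)) {g : ℕ} {f : R[X]}
    (hi : Irreducible (f.map (algebraMap R K)))
    {G1 G2 h h' : Matrix (Fin (2 * g + 1)) (Fin (2 * g + 1)) R}
    (hd : G1.det ≠ 0) (hG : pen G1 G2 = C G1.det * f) (hh : Ut h) (hh' : Ut h')
    (h1 : h * G1 * h.transpose = h' * G1 * h'.transpose)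
    (h2 : h * G2 * h.transpose = h' * G2 * h'.transpose) : h = h' := by
  set φ : R →+* K := algebraMap R K with hφ
  have hφi : Function.Injective φ := hinj
  set H := h.map φ with hH
  set H' := h'.map φ with hH'
  set A := G1.map φ with hA
  set B := G2.map φ with hB
  have dH : H.det = 1 := by
    have : H.det = φ h.det := by rw [RingHom.map_det]; rfl
    rw [this, ut_det hh, map_one]
  have dH' : H'.det = 1 := by
    have : H'.det = φ h'.det := by rw [RingHom.map_det]; rfl
    rw [this, ut_det hh', map_one]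
  have dA : A.det = φ G1.det := by rw [RingHom.map_det]; rfl
  have dA0 : A.det ≠ 0 := by
    rw [dA]
    exact fun h0 => hd (hφi (by rw [h0, map_zero]))
  have uH' : IsUnit H'.det := by rw [dH']; exact isUnit_one
  have uA : IsUnit A.det := isUnit_iff_ne_zero.2 dA0
  have hmap : ∀ G : Matrix (Fin (2 * g + 1)) (Fin (2 * g + 1)) R, ∀ P : Matrix _ _ R,
      (P * G * P.transpose).map φ = P.map φ * G.map φ * (P.map φ).transpose := by
    intro G P
    rw [Matrix.map_mul, Matrix.map_mul, Matrix.transpose_map]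
  have q1 : H * A * H.transpose = H' * A * H'.transpose := by
    rw [hH, hA, hH', ← hmap, ← hmap, h1]
  have q2 : H * B * H.transpose = H' * B * H'.transpose := by
    rw [hH, hB, hH', ← hmap, ← hmap, h2]
  set Q := H'⁻¹ * H with hQ
  have hinv : H'⁻¹ * H' = 1 := Matrix.nonsing_inv_mul _ uH'
  have htr : H'.transpose * (H'⁻¹).transpose = 1 := by
    rw [← Matrix.transpose_mul, hinv, Matrix.transpose_one]
  have key : ∀ S : Matrix (Fin (2 * g + 1)) (Fin (2 * g + 1)) K,
      H * S * H.transpose = H' * S * H'.transpose → Q * S * Q.transpose = S := by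
    intro S hS
    calc Q * S * Q.transpose = H'⁻¹ * (H * S * H.transpose) * (H'⁻¹).transpose := by
          rw [hQ, Matrix.transpose_mul]
          simp only [Matrix.mul_assoc]
      _ = H'⁻¹ * (H' * S * H'.transpose) * (H'⁻¹).transpose := by rw [hS]
      _ = (H'⁻¹ * H') * S * (H'.transpose * (H'⁻¹).transpose) := by
          simp only [Matrix.mul_assoc]
      _ = S := by rw [hinv, htr, Matrix.one_mul, Matrix.mul_one]
  have r1 := key A q1
  have r2 := key B q2
  set M := B * A⁻¹ with hM
  have hAinv : A⁻¹ * A = 1 := Matrix.nonsing_inv_mul _ uA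
  have hMA : M * A = B := by rw [hM, Matrix.mul_assoc, hAinv, Matrix.mul_one]
  have dR : Q.det = 1 := by
    have h3 : (H'⁻¹ * H').det = 1 := by rw [hinv, Matrix.det_one]
    rw [Matrix.det_mul, dH', mul_one] at h3
    rw [hQ, Matrix.det_mul, h3, dH, mul_one]
  have hcomm : Q * M = M * Q := by
    have u1 : IsUnit (A * Q.transpose).det := by
      rw [Matrix.det_mul, Matrix.det_transpose, dR, mul_one]
      exact uA
    have h3 : (Q * M) * (A * Q.transpose) = (M * Q) * (A * Q.transpose) := by
      calc (Q * M) * (A * Q.transpose) = Q * (M * A) * Q.transpose := by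
            simp only [Matrix.mul_assoc]
        _ = B := by rw [hMA, r2]
        _ = M * (Q * A * Q.transpose) := by rw [r1, hMA]
        _ = (M * Q) * (A * Q.transpose) := by simp only [Matrix.mul_assoc]
    have h4 := congrArg (fun Z => Z * (A * Q.transpose)⁻¹) h3
    simp only [Matrix.mul_assoc _ (A * Q.transpose) (A * Q.transpose)⁻¹] at h4
    rw [Matrix.mul_nonsing_inv _ u1, Matrix.mul_one, Matrix.mul_one] at h4
    exact h4
  have hchar : M.charpoly = f.map φ := by
    have h3 : pen A B = C A.det * f.map φ := by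
      rw [hA, hB, pen_map, hG, Polynomial.map_mul, Polynomial.map_C, ← dA]
    have h4 : pen A B = M.charpoly * C A.det := by
      have h5 : Matrix.scalar (Fin (2 * g + 1)) (X : K[X]) * A.map C - B.map C =
          (Matrix.scalar (Fin (2 * g + 1)) (X : K[X]) - M.map C) * A.map C := by
        rw [Matrix.sub_mul, ← Matrix.map_mul, hMA]
      unfold pen
      rw [h5, Matrix.det_mul]
      congr 1
      rw [RingHom.map_det]
      rfl
    have h6 : (C A.det : K[X]) ≠ 0 := by rwa [Ne, C_eq_zero]
    rw [h4, mul_comm] at h3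
    exact mul_left_cancel₀ h6 h3
  have hirr : Irreducible M.charpoly := by rw [hchar]; exact hi
  have hcomm' : (Q - 1) * M = M * (Q - 1) := by
    rw [Matrix.sub_mul, Matrix.mul_sub, hcomm, Matrix.one_mul, Matrix.mul_one]
  rcases field_like M (Q - 1) hirr hcomm' with h3 | h3
  · have h4 : Q = 1 := sub_eq_zero.1 h3
    have h5 : H = H' := by
      have h6 : H' * Q = H := by
        rw [hQ, ← Matrix.mul_assoc, Matrix.mul_nonsing_inv _ uH', Matrix.one_mul]
      rw [← h6, h4, Matrix.mul_one]
    ext1 i j
    have h7 := congrFun (congrFun h5 i) j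
    exact hφi h7
  · exfalso
    have h4 : IsUnit (H' * (Q - 1)).det := by
      rw [Matrix.det_mul, dH', one_mul]
      exact (Matrix.isUnit_iff_isUnit_det _).1 h3
    have h5 : H' * (Q - 1) = H - H' := by
      rw [Matrix.mul_sub, Matrix.mul_one, hQ, ← Matrix.mul_assoc, Matrix.mul_nonsing_inv _ uH',
        Matrix.one_mul]
    rw [h5] at h4
    have h6 : (H - H').det = 0 := by
      rw [Matrix.det_of_isLowerTriangular (H - H') (by
        intro i j hij
        have e1 := hh.up i j hij
        have e2 := hh'.up i j hij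
        simp [hH, hH', e1, e2])]
      apply Finset.prod_eq_zero (Finset.mem_univ (0 : Fin (2 * g + 1)))
      simp [hH, hH', hh.diag, hh'.diag]
    rw [h6] at h4
    exact not_isUnit_zero h4

end Pool.Agent.GBC
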