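import Pool.Agent.Lib.GBC.C.VecM
import Pool.Agent.Lib.GBC.P.Pl
import Pool.Agent.Lib.GBC.Q.Coset

/-!
Module C.CrtM of GBC. Vectors over `A` with entries in `M (e i)` and with conditions modulo the places of
a finite set `V`.

PROOF. Let `I = ∏ w ∈ V, prime w` (`w ↦ prime w` is injective, `prime_inj`, the `prime w` are maximal:
the product is the intersection, `Ideal.prod_eq_iInf`/`IsCoprime`, or: `a ∈ prime w` for all `w ∈ V`
implies `a ∈ I`, `Ideal.iInf_span`-like, `Ideal.inf_eq_prod_of_coprime`…), `D = degI I = ∑ deg w`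
(`degI_prod`, `degI_prime`, `prime_ne`). The map
`v ↦ (w ↦ i ↦ res w (v i))` from the set on the left to `∏ w ∈ V, {u : ι → κ w // P w u}` (index type
`{w // w ∈ V}`); two vectors with the same image are congruent modulo `I` in every coordinate, so a
fibre injects, by the `i`-th coordinate of a fixed element `v₀` of it, into
`∏ i, Cos I (v₀ i) 0 (e i)`, which has at most `∏ i, #k ^ dim IL I (e i)` elements (`card_cos_le`,
`finite_cos`). `dim IL I (e i) = 0 ≤ d (e i + 1) - D` by `he`, or `≤ d (e i + 1) - D`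
(`finrank_IL_le`); as natural numbers `dim + D ≤ d (e i + 1).toNat`. So
`# * #k ^ (D #ι) ≤ (∏ w ∈ V, #P w) * #k ^ (∑ i, d (e i + 1).toNat)`; multiply by `b ^ #V` and use
`∏ (b #P w) ≤ ∏ a #κ(w) ^ #ι = a ^ #V #k ^ (D #ι)` (`card_κ`), and cancel `#k ^ (D #ι)`.
-/

set_option autoImplicit false

open Polynomial

namespace Pool.Agent.GBC

open Pool.Agent.BSDP Pool.Agent.BSDFF Pool.Agent.HYP

variable {k K : Type} [Field k] [Field K] [Algebra k K] (G : Geo k K)

/-- an element of `A` which is in all the primes of `V` is in their product -/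
theorem mem_prodV {V : Finset G.FP} {a : G.A} (h : ∀ w ∈ V, a ∈ G.prime w) :
    a ∈ ∏ w ∈ V, G.prime w := by
  classical
  have key := IsDedekindDomain.inf_pow_eq_prod_of_prime V (fun w => G.prime w) (fun _ => 1)
    (fun w _ => Ideal.prime_of_isPrime (G.prime_ne w) (G.prime_max w).isPrime)
    (fun w _ w' _ hne heq => hne (G.prime_inj heq))
  simp only [pow_one] at key
  rw [← key, Submodule.mem_finsetInf]
  exact h

theorem degI_prodV (V : Finset G.FP) :
    G.degI (∏ w ∈ V, G.prime w) = ∑ w ∈ V, w.1.degree := by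
  rw [G.degI_prod V (fun w => G.prime w) (fun w _ => G.prime_ne w)]
  exact Finset.sum_congr rfl fun w _ => G.degI_prime w

private theorem CrtM_prod_ne (V : Finset G.FP) : (∏ w ∈ V, G.prime w) ≠ ⊥ := by
  classical
  have h : (∏ w ∈ V, G.prime w) ≠ 0 :=
    Finset.prod_ne_zero_iff.mpr fun w _ => G.prime_ne w
  exact h

private def CrtM_map (V : Finset G.FP) (a₀ : G.A) (e : ℤ)
    (a : {a : G.A // (a : K) ∈ G.M e ∧ ∀ w ∈ V, G.res w a = G.res w a₀}) :
    G.Cos (∏ w ∈ V, G.prime w) a₀ 0 e :=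
  ⟨a.1, by
    refine ⟨mem_prodV G fun w hw => ?_, ?_⟩
    · change a.1 - a₀ ∈ RingHom.ker (G.res w)
      rw [RingHom.mem_ker, map_sub, a.2.2 w hw, sub_self]
    · rw [sub_zero]
      exact a.2.1⟩

private theorem CrtM_map_inj (V : Finset G.FP) (a₀ : G.A) (e : ℤ) :
    Function.Injective (CrtM_map G V a₀ e) := by
  intro a a' h
  exact Subtype.ext (congrArg (fun x => (x.1 : G.A)) h)

private theorem CrtM_fin [Finite k] (V : Finset G.FP) (a₀ : G.A) (e : ℤ) :
    Finite {a : G.A // (a : K) ∈ G.M e ∧ ∀ w ∈ V, G.res w a = G.res w a₀} := by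
  have : Finite (G.Cos (∏ w ∈ V, G.prime w) a₀ 0 e) := (G.finite_cos _ _ _ _).to_subtype
  exact Finite.of_injective _ (CrtM_map_inj G V a₀ e)

/-- the coordinates of a fibre -/
theorem card_classM [Finite k] (V : Finset G.FP) (a₀ : G.A) (e : ℤ)
    (he : ((∑ w ∈ V, w.1.degree : ℕ) : ℤ) ≤ G.d * (e + 1)) :
    Nat.card {a : G.A // (a : K) ∈ G.M e ∧ ∀ w ∈ V, G.res w a = G.res w a₀} *
      Nat.card k ^ (∑ w ∈ V, w.1.degree) ≤ Nat.card k ^ (G.d * (e + 1).toNat) := by
  have hfin : Finite (G.Cos (∏ w ∈ V, G.prime w) a₀ 0 e) := (G.finite_cos _ _ _ _).to_subtype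
  have h1 := Nat.card_le_card_of_injective _ (CrtM_map_inj G V a₀ e)
  have h2 := G.card_cos_le (∏ w ∈ V, G.prime w) a₀ 0 e
  have h3 := G.finrank_IL_le (CrtM_prod_ne G V) e
  rw [degI_prodV] at h3
  have hk : 0 < Nat.card k := Nat.card_pos
  have hd : (0 : ℤ) ≤ (G.d : ℤ) := Int.natCast_nonneg _
  have h4 : (G.d : ℤ) * (e + 1) ≤ G.d * ((e + 1).toNat : ℤ) :=
    mul_le_mul_of_nonneg_left (Int.self_le_toNat _) hd
  have h5 : Module.finrank k (G.IL (∏ w ∈ V, G.prime w) e) + ∑ w ∈ V, w.1.degree ≤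
      G.d * (e + 1).toNat := by
    zify
    push_cast at he h3
    rcases h3 with h3 | h3
    · rw [h3]
      push_cast
      linarith
    · linarith
  calc Nat.card {a : G.A // (a : K) ∈ G.M e ∧ ∀ w ∈ V, G.res w a = G.res w a₀} *
        Nat.card k ^ (∑ w ∈ V, w.1.degree)
      ≤ Nat.card k ^ Module.finrank k (G.IL (∏ w ∈ V, G.prime w) e) *
        Nat.card k ^ (∑ w ∈ V, w.1.degree) := Nat.mul_le_mul_right _ (h1.trans h2)
    _ = Nat.card k ^ (Module.finrank k (G.IL (∏ w ∈ V, G.prime w) e) + ∑ w ∈ V, w.1.degree) :=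
        (pow_add _ _ _).symm
    _ ≤ Nat.card k ^ (G.d * (e + 1).toNat) := Nat.pow_le_pow_right hk h5

private theorem CrtM_finvec [Finite k] {ι : Type} [Fintype ι] (e : ι → ℤ)
    (C : (ι → G.A) → Prop) :
    Finite {v : ι → G.A // (∀ i, (v i : K) ∈ G.M (e i)) ∧ C v} := by
  have := finite_vecM G e
  refine Finite.of_injective (β := {v : ι → G.A // ∀ i, (v i : K) ∈ G.M (e i)})
    (fun v => ⟨v.1, v.2.1⟩) ?_
  intro v v' h
  exact Subtype.ext (congrArg (fun x => (x.1 : ι → G.A)) h)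

/-- the reductions of a vector -/
private noncomputable def CrtM_red {ι : Type} (V : Finset G.FP) (P : ∀ w : G.FP, (ι → G.κ w) → Prop)
    (e : ι → ℤ) (v : {v : ι → G.A // (∀ i, (v i : K) ∈ G.M (e i)) ∧
      ∀ w ∈ V, P w (fun i => G.res w (v i))}) :
    ∀ w : {w : G.FP // w ∈ V}, {u : ι → G.κ w.1 // P w.1 u} :=
  fun w => ⟨fun i => G.res w.1 (v.1 i), v.2.2 w.1 w.2⟩

private theorem CrtM_fibre [Finite k] {ι : Type} [Fintype ι] (V : Finset G.FP)
    (P : ∀ w : G.FP, (ι → G.κ w) → Prop)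
    (e : ι → ℤ) (he : ∀ i, ((∑ w ∈ V, w.1.degree : ℕ) : ℤ) ≤ G.d * (e i + 1))
    (τ : ∀ w : {w : G.FP // w ∈ V}, {u : ι → G.κ w.1 // P w.1 u}) :
    Nat.card {v // CrtM_red G V P e v = τ} *
      Nat.card k ^ ((∑ w ∈ V, w.1.degree) * Fintype.card ι) ≤
      Nat.card k ^ (∑ i, G.d * (e i + 1).toNat) := by
  classical
  rcases isEmpty_or_nonempty {v // CrtM_red G V P e v = τ} with h0 | ⟨⟨v₀, hv₀⟩⟩
  · rw [Nat.card_of_isEmpty, zero_mul]
    exact Nat.zero_le _
  · let Ψ : {v // CrtM_red G V P e v = τ} →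
        ∀ i, {a : G.A // (a : K) ∈ G.M (e i) ∧ ∀ w ∈ V, G.res w a = G.res w (v₀.1 i)} :=
      fun v i => ⟨v.1.1 i, v.1.2.1 i, fun w hw => by
        have h1 : CrtM_red G V P e v.1 = CrtM_red G V P e v₀ := v.2.trans hv₀.symm
        have h2 := congrFun h1 ⟨w, hw⟩
        exact congrFun (congrArg (fun x => (x.1 : ι → G.κ w)) h2) i⟩
    have hΨ : Function.Injective Ψ := by
      intro v v' h
      refine Subtype.ext (Subtype.ext (funext fun i => ?_))
      exact congrArg (fun x => (x.1 : G.A)) (congrFun h i)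
    have hf : ∀ i, Finite {a : G.A // (a : K) ∈ G.M (e i) ∧
        ∀ w ∈ V, G.res w a = G.res w (v₀.1 i)} := fun i => CrtM_fin G V (v₀.1 i) (e i)
    have h3 := Nat.card_le_card_of_injective Ψ hΨ
    rw [Nat.card_pi] at h3
    calc Nat.card {v // CrtM_red G V P e v = τ} *
          Nat.card k ^ ((∑ w ∈ V, w.1.degree) * Fintype.card ι)
        ≤ (∏ i, Nat.card {a : G.A // (a : K) ∈ G.M (e i) ∧
            ∀ w ∈ V, G.res w a = G.res w (v₀.1 i)}) *
          Nat.card k ^ ((∑ w ∈ V, w.1.degree) * Fintype.card ι) :=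
          Nat.mul_le_mul_right _ h3
      _ = ∏ i, (Nat.card {a : G.A // (a : K) ∈ G.M (e i) ∧
            ∀ w ∈ V, G.res w a = G.res w (v₀.1 i)} *
          Nat.card k ^ (∑ w ∈ V, w.1.degree)) := by
          rw [Finset.prod_mul_distrib, Finset.prod_const, Finset.card_univ, ← pow_mul]
      _ ≤ ∏ i, Nat.card k ^ (G.d * (e i + 1).toNat) :=
          Finset.prod_le_prod' fun i _ => card_classM G V (v₀.1 i) (e i) (he i)
      _ = Nat.card k ^ (∑ i, G.d * (e i + 1).toNat) :=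
          Finset.prod_pow_eq_pow_sum _ _ _

theorem crt_vecM [Finite k] {ι : Type} [Fintype ι] (V : Finset G.FP)
    (P : ∀ w : G.FP, (ι → G.κ w) → Prop) (a b : ℕ)
    (hP : ∀ w ∈ V, b * Nat.card {v : ι → G.κ w // P w v} ≤
      a * Nat.card (G.κ w) ^ Fintype.card ι)
    (e : ι → ℤ) (he : ∀ i, ((∑ w ∈ V, w.1.degree : ℕ) : ℤ) ≤ G.d * (e i + 1)) :
    b ^ V.card * Nat.card {v : ι → G.A // (∀ i, (v i : K) ∈ G.M (e i)) ∧
      ∀ w ∈ V, P w (fun i => G.res w (v i))} ≤
      a ^ V.card * Nat.card k ^ (∑ i, G.d * (e i + 1).toNat) := by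
  classical
  have hk : 0 < Nat.card k := Nat.card_pos
  have hκ : ∀ w : G.FP, Finite (G.κ w) := fun w => G.fin_κ w
  have hfS := CrtM_finvec G e (fun v => ∀ w ∈ V, P w (fun i => G.res w (v i)))
  have hfT : Finite (∀ w : {w : G.FP // w ∈ V}, {u : ι → G.κ w.1 // P w.1 u}) := inferInstance
  have := Fintype.ofFinite (∀ w : {w : G.FP // w ∈ V}, {u : ι → G.κ w.1 // P w.1 u})
  set S := Nat.card {v : ι → G.A // (∀ i, (v i : K) ∈ G.M (e i)) ∧
      ∀ w ∈ V, P w (fun i => G.res w (v i))} with hS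
  set D : ℕ := ∑ w ∈ V, w.1.degree with hD
  have h1 : S = ∑ τ : (∀ w : {w : G.FP // w ∈ V}, {u : ι → G.κ w.1 // P w.1 u}),
      Nat.card {v // CrtM_red G V P e v = τ} := by
    rw [hS, Nat.card_congr (Equiv.sigmaFiberEquiv (CrtM_red G V P e)).symm, Nat.card_sigma]
  have h2 : S * Nat.card k ^ (D * Fintype.card ι) ≤
      Nat.card (∀ w : {w : G.FP // w ∈ V}, {u : ι → G.κ w.1 // P w.1 u}) *
        Nat.card k ^ (∑ i, G.d * (e i + 1).toNat) := by
    have h6 : Nat.card (∀ w : {w : G.FP // w ∈ V}, {u : ι → G.κ w.1 // P w.1 u}) =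
        (Finset.univ : Finset (∀ w : {w : G.FP // w ∈ V}, {u : ι → G.κ w.1 // P w.1 u})).card :=
      Nat.card_eq_fintype_card
    rw [h1, Finset.sum_mul, h6]
    exact Finset.sum_le_card_nsmul _ _ _ fun τ _ => CrtM_fibre G V P e he τ
  have h3 : b ^ V.card * Nat.card (∀ w : {w : G.FP // w ∈ V}, {u : ι → G.κ w.1 // P w.1 u}) ≤
      a ^ V.card * Nat.card k ^ (D * Fintype.card ι) := by
    rw [Nat.card_pi]
    have h4 : (∏ w : {w : G.FP // w ∈ V}, Nat.card {u : ι → G.κ w.1 // P w.1 u}) =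
        ∏ w ∈ V, Nat.card {u : ι → G.κ w // P w u} :=
      Finset.prod_coe_sort V (fun w => Nat.card {u : ι → G.κ w // P w u})
    rw [h4]
    calc b ^ V.card * ∏ w ∈ V, Nat.card {u : ι → G.κ w // P w u}
        = ∏ w ∈ V, (b * Nat.card {u : ι → G.κ w // P w u}) := by
          rw [Finset.prod_mul_distrib, Finset.prod_const]
      _ ≤ ∏ w ∈ V, (a * Nat.card (G.κ w) ^ Fintype.card ι) :=
          Finset.prod_le_prod' fun w hw => hP w hw
      _ = a ^ V.card * Nat.card k ^ (D * Fintype.card ι) := by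
          rw [Finset.prod_mul_distrib, Finset.prod_const, Finset.prod_pow, pow_mul]
          congr 2
          rw [hD, ← Finset.prod_pow_eq_pow_sum]
          exact Finset.prod_congr rfl fun w _ => G.card_κ w
  have h5 : 0 < Nat.card k ^ (D * Fintype.card ι) := pow_pos hk _
  refine Nat.le_of_mul_le_mul_right ?_ h5
  calc b ^ V.card * S * Nat.card k ^ (D * Fintype.card ι)
      = b ^ V.card * (S * Nat.card k ^ (D * Fintype.card ι)) := by ring
    _ ≤ b ^ V.card * (Nat.card (∀ w : {w : G.FP // w ∈ V}, {u : ι → G.κ w.1 // P w.1 u}) *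
        Nat.card k ^ (∑ i, G.d * (e i + 1).toNat)) := Nat.mul_le_mul_left _ h2
    _ = (b ^ V.card * Nat.card (∀ w : {w : G.FP // w ∈ V}, {u : ι → G.κ w.1 // P w.1 u})) *
        Nat.card k ^ (∑ i, G.d * (e i + 1).toNat) := by ring
    _ ≤ (a ^ V.card * Nat.card k ^ (D * Fintype.card ι)) *
        Nat.card k ^ (∑ i, G.d * (e i + 1).toNat) := Nat.mul_le_mul_right _ h3
    _ = a ^ V.card * Nat.card k ^ (∑ i, G.d * (e i + 1).toNat) *
        Nat.card k ^ (D * Fintype.card ι) := by ring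

end Pool.Agent.GBC
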