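import Pool.Agent.Lib.GBC.QDef
import Pool.Agent.Lib.HYP.C.Defs

/-!
Block C (count of the pairs of matrices) of GBC: definitions.
-/

set_option autoImplicit false

open Polynomial

namespace Pool.Agent.GBC

open Pool.Agent.BSDP Pool.Agent.BSDFF Pool.Agent.HYP

/-- lower unitriangular -/
structure Ut {R : Type} [CommRing R] {n : ℕ} (h : Matrix (Fin n) (Fin n) R) : Prop where
  diag : ∀ i, h i i = 1
  up : ∀ i j, i < j → h i j = 0

variable {k K : Type} [Field k] [Field K] [Algebra k K]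

/-- lower unitriangular over `A`, with `h i j ∈ t ^ (e i j) B` for `j < i` -/
structure UtM (G : Geo k K) {n : ℕ} (e : Fin n → Fin n → ℤ) (h : Matrix (Fin n) (Fin n) G.A) :
    Prop extends Ut h where
  low : ∀ i j, j < i → (h i j : K) ∈ G.M (e i j)

/-- The pair `(G1, G2)` is nondegenerate and not detected at the places of `V`. -/
def UndetG (G : Geo k K) {n : ℕ} (V : Finset G.FP) (G1 G2 : Matrix (Fin n) (Fin n) G.A) : Prop :=
  ∀ w ∈ V, (G1.map (G.res w)).det ≠ 0 ∧ ¬ Det (G1.map (G.res w)) (G2.map (G.res w))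

/-- The sizes of the entries of `G1`. -/
def f1 (g C : ℕ) (r : ℕ → ℕ) (i j : Fin (2 * g + 1)) : ℤ := nn g r i + nn g r j + C

/-- The sizes of the entries of `G2`. -/
def f2 (g m C : ℕ) (r : ℕ → ℕ) (i j : Fin (2 * g + 1)) : ℤ := 2 * m + nn g r i + nn g r j + C

/-- The sizes of the entries of `h`. -/
def fh (g : ℕ) (r : ℕ → ℕ) (i j : Fin (2 * g + 1)) : ℤ := nn g r i - nn g r j

end Pool.Agent.GBC
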