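import Pool.Agent.Lib.GBC.C.Defs
import Pool.Agent.Lib.HYP.C.Exps

/-!
Module C.ExpsM of GBC (integers only). The inequality between the exponents.

PROOF. `exps` of `HYP/C/Exps.lean` for `m' = m + C` (`h : Typ g (m + C) r`):
`g (Σ e1 + Σ e2') + Σ r ≤ g (Σ eh + 2 m' + (2 g + 1) (g + 2) + m' (4 g ^ 2 + 6 g))` with
`e1 = (nn i + nn j + 1).toNat`, `e2' = e2 g (m + C) r = (2 (m + C) + nn i + nn j + 1).toNat`,
`eh = (nn i - nn j + 1).toNat`, sums over `i ≤ j`, `i ≤ j`, `j < i`. Termwise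
`(f1 i j + 1).toNat ≤ e1 i j + C`, `(f2 i j + 1).toNat ≤ e2' i j`,
`eh i j ≤ (fh i j - C₀).toNat + (C₀ + 1)`, and `2 m' ≤ (2 m - C₀).toNat + C₀ + 2 C`,
`m' (4 g ^ 2 + 6 g) = m (4 g ^ 2 + 6 g) + C (4 g ^ 2 + 6 g)`; the number of pairs `i ≤ j` or `j < i` is at
most `(2 g + 1) ^ 2` (`sumLe`, `sumLt` of a constant `c` are at most `c (2 g + 1) ^ 2`). So
`K₁ = 2 C (2 g + 1) ^ 2 + (C₀ + 1) (2 g + 1) ^ 2 + C₀ + 2 C + (2 g + 1) (g + 2) + C (4 g ^ 2 + 6 g)` is
enough (there is room). `sum_le_two` is the bound `he` of `PrM.undet_cardM`: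
`nn g r i ≥ - r g` (`abs_nn_le`).
-/

set_option autoImplicit false

open Polynomial

namespace Pool.Agent.GBC

open Pool.Agent.BSDP Pool.Agent.BSDFF Pool.Agent.HYP

private theorem ExpsM_le {n : ℕ} {e e' : Fin n → Fin n → ℕ} {c : ℕ}
    (h : ∀ i j, e i j ≤ e' i j + c) : sumLe e ≤ sumLe e' + n * (n * c) := by
  unfold sumLe
  calc ∑ i, ∑ j, (if i ≤ j then e i j else 0)
      ≤ ∑ i : Fin n, ∑ j : Fin n, ((if i ≤ j then e' i j else 0) + c) := by
        refine Finset.sum_le_sum fun i _ => Finset.sum_le_sum fun j _ => ?_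
        have := h i j
        split_ifs <;> omega
    _ = _ := by
        simp only [Finset.sum_add_distrib, Finset.sum_const, Finset.card_univ, Fintype.card_fin,
          smul_eq_mul]

private theorem ExpsM_lt {n : ℕ} {e e' : Fin n → Fin n → ℕ} {c : ℕ}
    (h : ∀ i j, e i j ≤ e' i j + c) : sumLt e ≤ sumLt e' + n * (n * c) := by
  unfold sumLt
  calc ∑ i, ∑ j, (if j < i then e i j else 0)
      ≤ ∑ i : Fin n, ∑ j : Fin n, ((if j < i then e' i j else 0) + c) := by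
        refine Finset.sum_le_sum fun i _ => Finset.sum_le_sum fun j _ => ?_
        have := h i j
        split_ifs <;> omega
    _ = _ := by
        simp only [Finset.sum_add_distrib, Finset.sum_const, Finset.card_univ, Fintype.card_fin,
          smul_eq_mul]

theorem expsM (g C C₀ : ℕ) (hg : 1 ≤ g) : ∃ K₁ : ℕ, ∀ (m : ℕ) (r : ℕ → ℕ), Typ g (m + C) r →
    g * (sumLe (fun i j => (f1 g C r i j + 1).toNat) +
      sumLe (fun i j => (f2 g m C r i j + 1).toNat)) + ∑ b ∈ Finset.Icc 1 g, r b ≤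
    g * (sumLt (fun i j => (fh g r i j - C₀).toNat) + (2 * (m : ℤ) - C₀).toNat + K₁ +
      m * (4 * g ^ 2 + 6 * g)) := by
  refine ⟨(2 * g + 1) * ((2 * g + 1) * C) + (2 * g + 1) * ((2 * g + 1) * (C₀ + 1)) + C₀ + 2 * C +
    (2 * g + 1) * (g + 2) + C * (4 * g ^ 2 + 6 * g), fun m r h => ?_⟩
  have h0 := exps hg h
  have h1 : sumLe (fun i j => (f1 g C r i j + 1).toNat) ≤
      sumLe (e1 g r) + (2 * g + 1) * ((2 * g + 1) * C) := by
    refine ExpsM_le fun i j => ?_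
    show (nn g r i + nn g r j + C + 1).toNat ≤ (nn g r i + nn g r j + 1).toNat + C
    omega
  have h2 : sumLe (fun i j => (f2 g m C r i j + 1).toNat) ≤
      sumLe (e2 g (m + C) r) + (2 * g + 1) * ((2 * g + 1) * 0) := by
    refine ExpsM_le fun i j => ?_
    show (2 * (m : ℤ) + nn g r i + nn g r j + C + 1).toNat ≤
      (2 * ((m + C : ℕ) : ℤ) + nn g r i + nn g r j + 1).toNat + 0
    omega
  have h3 : sumLt (eh g r) ≤ sumLt (fun i j => (fh g r i j - C₀).toNat) +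
      (2 * g + 1) * ((2 * g + 1) * (C₀ + 1)) := by
    refine ExpsM_lt fun i j => ?_
    show (nn g r i - nn g r j + 1).toNat ≤ (nn g r i - nn g r j - C₀).toNat + (C₀ + 1)
    omega
  have h4 : 2 * m ≤ (2 * (m : ℤ) - C₀).toNat + C₀ := by omega
  have h5 : g * (sumLe (fun i j => (f1 g C r i j + 1).toNat) +
      sumLe (fun i j => (f2 g m C r i j + 1).toNat)) ≤
      g * (sumLe (e1 g r) + sumLe (e2 g (m + C) r)) + g * ((2 * g + 1) * ((2 * g + 1) * C)) := by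
    rw [← Nat.mul_add]
    exact Nat.mul_le_mul_left _ (by omega)
  have h6 : g * (sumLt (eh g r) + 2 * (m + C) + (2 * g + 1) * (g + 2) +
      (m + C) * (4 * g ^ 2 + 6 * g)) + g * ((2 * g + 1) * ((2 * g + 1) * C)) ≤
      g * (sumLt (fun i j => (fh g r i j - C₀).toNat) + (2 * (m : ℤ) - C₀).toNat +
      ((2 * g + 1) * ((2 * g + 1) * C) + (2 * g + 1) * ((2 * g + 1) * (C₀ + 1)) + C₀ + 2 * C +
      (2 * g + 1) * (g + 2) + C * (4 * g ^ 2 + 6 * g)) + m * (4 * g ^ 2 + 6 * g)) := by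
    rw [← Nat.mul_add]
    refine Nat.mul_le_mul_left _ ?_
    have h7 : (m + C) * (4 * g ^ 2 + 6 * g) = m * (4 * g ^ 2 + 6 * g) + C * (4 * g ^ 2 + 6 * g) :=
      Nat.add_mul _ _ _
    rw [h7]
    omega
  omega

theorem f2_ge {g m C : ℕ} {r : ℕ → ℕ} (h : Typ g (m + C) r) (i j : Fin (2 * g + 1)) :
    2 * (m : ℤ) - 2 * r g ≤ f2 g m C r i j := by
  have h1 := abs_nn_le h i
  have h2 := abs_nn_le h j
  show 2 * (m : ℤ) - 2 * r g ≤ 2 * m + nn g r i + nn g r j + C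
  omega

end Pool.Agent.GBC
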