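import Pool.Agent.Lib.GBC.C.SymM
import Pool.Agent.Lib.HYP.C.Dens

/-!
Module C.PrM of GBC. The number of the pairs of type `r`, and of those which are not detected at the
places of `V`.

ADAPTATION of `Pool/Agent/Lib/HYP/C/Pr.lean`.
* `finite_pairsM`, `pairs_card_leM`: `G1` and `G2` are symmetric matrices with entries in `M (f1 i j)`,
  `M (f2 i j)`: `card_symM_le` twice.
* `undet_cardM`: for each `G1` which is nondegenerate modulo the places of `V` (otherwise there is no
  `G2`; the condition `(G1.map (res w)).det ≠ 0` is a part of `UndetG`) the number of the `G2` is bounded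
  by `crt_symM` with `P w S = ¬ Det (G1 mod w) S`, `a = 32 g - 1`, `b = 32 g`: `pr_dens` there (copy it,
  it is private: from `dens` and `card_sym`) for the finite field `κ w` (`fin_κ`), in which `2 ≠ 0`
  (the image of `2 : k`: `κ w` is a nontrivial ring with a ring homomorphism from the field `k`,
  `Place.constMap`); then sum over `G1`.
-/

set_option autoImplicit false

open Polynomial

namespace Pool.Agent.GBC

open Pool.Agent.BSDP Pool.Agent.BSDFF Pool.Agent.HYP

variable {k K : Type} [Field k] [Field K] [Algebra k K] (G : Geo k K) {g m C : ℕ} {r : ℕ → ℕ}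

private theorem prM_part {α : Type} (p q : α → Prop) [Finite {x // p x}] :
    Nat.card {x // p x} = Nat.card {x // p x ∧ q x} + Nat.card {x // p x ∧ ¬ q x} := by
  classical
  rw [← Nat.card_congr (Equiv.sumCompl (fun x : {x // p x} => q x.1)), Nat.card_sum,
    Nat.card_congr (Equiv.subtypeSubtypeEquivSubtypeInter p q),
    Nat.card_congr (Equiv.subtypeSubtypeEquivSubtypeInter p (fun x => ¬ q x))]

private theorem prM_dens {κ : Type} [Field κ] [Finite κ] (h2 : (2 : κ) ≠ 0) {g : ℕ} (hg : 1 ≤ g)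
    (G1 : Matrix (Fin (2 * g + 1)) (Fin (2 * g + 1)) κ) (hs : G1.transpose = G1)
    (hd : G1.det ≠ 0) :
    32 * g * Nat.card {G2 : Matrix (Fin (2 * g + 1)) (Fin (2 * g + 1)) κ //
      G2.transpose = G2 ∧ ¬ Det G1 G2} ≤
      (32 * g - 1) * Nat.card κ ^ ((2 * g + 1) * (2 * g + 1 + 1) / 2) := by
  have h1 := dens h2 hg G1 hs hd
  have h3 := prM_part (fun G2 : Matrix (Fin (2 * g + 1)) (Fin (2 * g + 1)) κ => G2.transpose = G2)
    (fun G2 => Det G1 G2)
  rw [card_sym κ] at h3
  have he : (2 * g + 1) * (2 * g + 1 + 1) / 2 = (2 * g + 1) * (g + 1) := by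
    have : (2 * g + 1) * (2 * g + 1 + 1) = ((2 * g + 1) * (g + 1)) * 2 := by ring
    rw [this, Nat.mul_div_cancel _ (by norm_num)]
  rw [he] at h3 ⊢
  obtain ⟨t, ht⟩ : ∃ t, 32 * g = t + 1 := ⟨32 * g - 1, by omega⟩
  rw [ht] at h1 ⊢
  rw [Nat.add_sub_cancel]
  set N := Nat.card κ ^ ((2 * g + 1) * (g + 1))
  set D := Nat.card {G2 : Matrix (Fin (2 * g + 1)) (Fin (2 * g + 1)) κ //
    G2.transpose = G2 ∧ Det G1 G2}
  set M := Nat.card {G2 : Matrix (Fin (2 * g + 1)) (Fin (2 * g + 1)) κ //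
    G2.transpose = G2 ∧ ¬ Det G1 G2}
  have h4 : (t + 1) * N = (t + 1) * D + (t + 1) * M := by rw [h3]; ring
  have h5 : (t + 1) * N = t * N + N := by ring
  linarith

/-- symmetric matrices with entries of given sizes -/
private abbrev PrM_S (e : Fin (2 * g + 1) → Fin (2 * g + 1) → ℤ) : Type :=
  {S : Matrix (Fin (2 * g + 1)) (Fin (2 * g + 1)) G.A // S.transpose = S ∧
    ∀ i j, (S i j : K) ∈ G.M (e i j)}

/-- the pairs -/
private abbrev PrM_P (g m C : ℕ) (r : ℕ → ℕ) (V : Finset G.FP) : Type :=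
  {p : Matrix (Fin (2 * g + 1)) (Fin (2 * g + 1)) G.A ×
      Matrix (Fin (2 * g + 1)) (Fin (2 * g + 1)) G.A //
        DegP G g m C r p.1 p.2 ∧ UndetG G V p.1 p.2}

private def PrM_f (V : Finset G.FP) (p : PrM_P G g m C r V) :
    PrM_S G (f1 g C r) × PrM_S G (f2 g m C r) :=
  (⟨p.1.1, p.2.1.s1, p.2.1.d1⟩, ⟨p.1.2, p.2.1.s2, p.2.1.d2⟩)

private theorem PrM_f_inj (V : Finset G.FP) :
    Function.Injective (PrM_f G (g := g) (m := m) (C := C) (r := r) V) := by
  intro p q hpq
  have h1 := congrArg (fun z => z.1.1) hpq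
  have h2 := congrArg (fun z => z.2.1) hpq
  exact Subtype.ext (Prod.ext h1 h2)

theorem finite_pairsM [Finite k] (V : Finset G.FP) :
    Finite {p : Matrix (Fin (2 * g + 1)) (Fin (2 * g + 1)) G.A ×
      Matrix (Fin (2 * g + 1)) (Fin (2 * g + 1)) G.A //
        DegP G g m C r p.1 p.2 ∧ UndetG G V p.1 p.2} := by
  have h1 := finite_symM G (f1 g C r)
  have h2 := finite_symM G (f2 g m C r)
  exact Finite.of_injective _ (PrM_f_inj G V)

theorem pairs_card_leM [Finite k] (V : Finset G.FP) :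
    Nat.card {p : Matrix (Fin (2 * g + 1)) (Fin (2 * g + 1)) G.A ×
      Matrix (Fin (2 * g + 1)) (Fin (2 * g + 1)) G.A //
        DegP G g m C r p.1 p.2 ∧ UndetG G V p.1 p.2} ≤
      Nat.card k ^ (sumLe (fun i j => G.d * (f1 g C r i j + 1).toNat) +
        sumLe (fun i j => G.d * (f2 g m C r i j + 1).toNat)) := by
  have h1 := finite_symM G (f1 g C r)
  have h2 := finite_symM G (f2 g m C r)
  refine le_trans (Nat.card_le_card_of_injective _ (PrM_f_inj G V)) ?_
  rw [Nat.card_prod, pow_add]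
  exact Nat.mul_le_mul (card_symM_le G (f1 g C r)) (card_symM_le G (f2 g m C r))

theorem undet_cardM [Finite k] (h2 : (2 : k) ≠ 0) (hg : 1 ≤ g) (V : Finset G.FP)
    (he : ∀ i j, ((∑ w ∈ V, w.1.degree : ℕ) : ℤ) ≤ G.d * (f2 g m C r i j + 1)) :
    (32 * g) ^ V.card * Nat.card {p : Matrix (Fin (2 * g + 1)) (Fin (2 * g + 1)) G.A ×
      Matrix (Fin (2 * g + 1)) (Fin (2 * g + 1)) G.A //
        DegP G g m C r p.1 p.2 ∧ UndetG G V p.1 p.2} ≤
      (32 * g - 1) ^ V.card *
        Nat.card k ^ (sumLe (fun i j => G.d * (f1 g C r i j + 1).toNat) +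
          sumLe (fun i j => G.d * (f2 g m C r i j + 1).toNat)) := by
  classical
  have hf1 := finite_symM G (f1 g C r)
  have hf2 := finite_symM G (f2 g m C r)
  -- the fibre over `G1`
  set Fib : PrM_S G (f1 g C r) → Type := fun G1 =>
    {G2 : Matrix (Fin (2 * g + 1)) (Fin (2 * g + 1)) G.A //
      DegP G g m C r G1.1 G2 ∧ UndetG G V G1.1 G2} with hFib
  have hinjF : ∀ G1, Function.Injective (fun G2 : Fib G1 =>
      (⟨G2.1, G2.2.1.s2, G2.2.1.d2⟩ : PrM_S G (f2 g m C r))) := by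
    intro G1 p q hpq
    exact Subtype.ext (congrArg (fun z => z.1) hpq)
  have hfin : ∀ G1, Finite (Fib G1) := fun G1 => Finite.of_injective _ (hinjF G1)
  have hbound : ∀ G1, (32 * g) ^ V.card * Nat.card (Fib G1) ≤
      (32 * g - 1) ^ V.card *
        Nat.card k ^ sumLe (fun i j => G.d * (f2 g m C r i j + 1).toNat) := by
    intro G1
    by_cases hemp : IsEmpty (Fib G1)
    · rw [Nat.card_of_isEmpty, mul_zero]
      exact Nat.zero_le _
    · rw [not_isEmpty_iff] at hemp
      obtain ⟨G2, hG2, hU⟩ := hemp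
      have hP : ∀ w ∈ V, (32 * g) * Nat.card
          {S : Matrix (Fin (2 * g + 1)) (Fin (2 * g + 1)) (G.κ w) //
            S.transpose = S ∧ ¬ Det (G1.1.map (G.res w)) S} ≤
          (32 * g - 1) * Nat.card (G.κ w) ^ ((2 * g + 1) * (2 * g + 1 + 1) / 2) := by
        intro w hw
        have hfi : Finite (G.κ w) := G.fin_κ w
        have h2' : (2 : G.κ w) ≠ 0 := by
          have h5 : w.1.constMap 2 ≠ 0 := (_root_.map_ne_zero _).2 h2
          rwa [map_ofNat] at h5
        have hs' : (G1.1.map (G.res w)).transpose = G1.1.map (G.res w) := by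
          conv_rhs => rw [← G1.2.1]
          exact Matrix.transpose_map.symm
        exact prM_dens h2' hg (G1.1.map (G.res w)) hs' (hU w hw).1
      have hcrt := crt_symM G V
        (fun w S => ¬ Det (G1.1.map (G.res w)) S) (32 * g - 1) (32 * g) hP (f2 g m C r) he
      refine le_trans (Nat.mul_le_mul_left _ ?_) hcrt
      have hfin3 : Finite {S : Matrix (Fin (2 * g + 1)) (Fin (2 * g + 1)) G.A //
          S.transpose = S ∧ (∀ i j, (S i j : K) ∈ G.M (f2 g m C r i j)) ∧
          ∀ w ∈ V, ¬ Det (G1.1.map (G.res w)) (S.map (G.res w))} := by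
        refine Finite.of_injective (fun S => (⟨S.1, S.2.1, S.2.2.1⟩ : PrM_S G (f2 g m C r))) ?_
        intro p q hpq
        exact Subtype.ext (congrArg (fun z => z.1) hpq)
      refine Nat.card_le_card_of_injective (fun G2 : Fib G1 =>
        (⟨G2.1, G2.2.1.s2, G2.2.1.d2, fun w hw => (G2.2.2 w hw).2⟩ :
          {S : Matrix (Fin (2 * g + 1)) (Fin (2 * g + 1)) G.A //
          S.transpose = S ∧ (∀ i j, (S i j : K) ∈ G.M (f2 g m C r i j)) ∧
          ∀ w ∈ V, ¬ Det (G1.1.map (G.res w)) (S.map (G.res w))})) ?_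
      intro p q hpq
      exact Subtype.ext (congrArg (fun z => z.1) hpq)
  have := Fintype.ofFinite (PrM_S G (f1 g C r))
  have hcard : Nat.card (PrM_P G g m C r V) ≤ ∑ G1, Nat.card (Fib G1) := by
    rw [← Nat.card_sigma]
    refine Nat.card_le_card_of_injective (fun p => (⟨⟨p.1.1, p.2.1.s1, p.2.1.d1⟩,
      ⟨p.1.2, p.2⟩⟩ : Σ G1, Fib G1)) ?_
    intro p q hpq
    have h1 := congrArg (fun z => z.1.1) hpq
    have h2 := congrArg (fun z : (Σ G1, Fib G1) => z.2.1) hpq
    exact Subtype.ext (Prod.ext h1 h2)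
  calc (32 * g) ^ V.card * Nat.card (PrM_P G g m C r V)
      ≤ (32 * g) ^ V.card * ∑ G1, Nat.card (Fib G1) := Nat.mul_le_mul_left _ hcard
    _ = ∑ G1, (32 * g) ^ V.card * Nat.card (Fib G1) := Finset.mul_sum _ _ _
    _ ≤ ∑ _G1 : PrM_S G (f1 g C r), (32 * g - 1) ^ V.card *
          Nat.card k ^ sumLe (fun i j => G.d * (f2 g m C r i j + 1).toNat) :=
        Finset.sum_le_sum fun G1 _ => hbound G1
    _ = Nat.card (PrM_S G (f1 g C r)) * ((32 * g - 1) ^ V.card *
          Nat.card k ^ sumLe (fun i j => G.d * (f2 g m C r i j + 1).toNat)) := by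
        rw [Finset.sum_const, Finset.card_univ, ← Nat.card_eq_fintype_card, smul_eq_mul]
    _ ≤ Nat.card k ^ sumLe (fun i j => G.d * (f1 g C r i j + 1).toNat) *
          ((32 * g - 1) ^ V.card *
          Nat.card k ^ sumLe (fun i j => G.d * (f2 g m C r i j + 1).toNat)) :=
        Nat.mul_le_mul_right _ (card_symM_le G (f1 g C r))
    _ = (32 * g - 1) ^ V.card *
        Nat.card k ^ (sumLe (fun i j => G.d * (f1 g C r i j + 1).toNat) +
          sumLe (fun i j => G.d * (f2 g m C r i j + 1).toNat)) := by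
        rw [pow_add]
        ring

end Pool.Agent.GBC
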