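import Pool.Agent.Lib.GBC.C.ActM
import Pool.Agent.Lib.GBC.C.PrM
import Pool.Agent.Lib.GBC.C.ExpsM

/-!
Module C.RepM of GBC. The number of the polynomials of the family which are represented by a pair of type
`r`, undetected at the places of `V`.

ADAPTATION of `Pool/Agent/Lib/HYP/C/RepCard.lean`.
`exists_injM`: choose for each such `f` a pair `(G1, G2)` (`RepV`; `UndetG` is literally its last
condition, `pen` its determinant); the map `(f, h, s) ↦ (h G1 hᵀ, h G2 hᵀ - s h G1 hᵀ)` into the pairs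
with `DegP` and `UndetG` is injective (`act_inj₁`, then the pairs are the same, then `act_inj₂`;
`G1.det ≠ 0` from `DegP.det`; `2 g + 1 ≠ 0` in `A` from `hn`; `algebraMap G.A K` is injective; `A` is a
domain). `finite_repM`: compose with `f ↦ (f, 1, 0)`.
`card_repM_le`: with `C₀` of `card_elM_ge`, `K₁` of `expsM`: `q = #k`, `N = # of the f`,
`N q ^ (d Σ_{j<i} (fh - C₀).toNat) q ^ (d (2 m - C₀).toNat) ≤ N # UtM # {s} ≤ # pairs ≤
q ^ (d Σ (f1 + 1).toNat + d Σ (f2 + 1).toNat)` (`card_utM_ge`, `card_elM_ge` for `y = 2 m`,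
`pairs_card_leM`; `sumLe (fun i j => d * x i j) = d * sumLe x`); with `Qd = q ^ d`:
`N * Qd ^ B ≤ Qd ^ A`, and `g A + ρ ≤ g (B + K₁ + m (4 g ^ 2 + 6 g))` by `expsM`, as in
`HYP/C/RepCard.lean`. The second bound in the same way from `undet_cardM`; its condition `he`:
`∑ deg w ≤ 2 m - 2 r g ≤ d (f2 + 1)` (`f2_ge`, `d ≥ 1`).
The constant `K₁` depends on `G`, `g`, `C` only.
-/

set_option autoImplicit false

open Polynomial

namespace Pool.Agent.GBC

open Pool.Agent.BSDP Pool.Agent.BSDFF Pool.Agent.HYP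

variable {k K : Type} [Field k] [Field K] [Algebra k K] (G : Geo k K)

private theorem repm_nA {g : ℕ} (hn : ((2 * g + 1 : ℕ) : k) ≠ 0) : ((2 * g + 1 : ℕ) : G.A) ≠ 0 := by
  intro h
  have h1 : algebraMap k G.A ((2 * g + 1 : ℕ) : k) = 0 := by
    rw [map_natCast]
    exact h
  exact hn ((map_eq_zero_iff _ (algebraMap k G.A).injective).1 h1)

private theorem repm_det {g m C : ℕ} {r : ℕ → ℕ}
    {G1 G2 : Matrix (Fin (2 * g + 1)) (Fin (2 * g + 1)) G.A} (h : DegP G g m C r G1 G2) :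
    G1.det ≠ 0 := by
  intro h0
  obtain ⟨u, hu, h1⟩ := h.det
  rw [h0, mul_zero] at h1
  exact hu (pow_eq_zero_iff (two_ne_zero) |>.1 h1.symm)

private theorem repm_inj {g : ℕ} (hn : ((2 * g + 1 : ℕ) : k) ≠ 0) {C m : ℕ} {r : ℕ → ℕ}
    {D : Data G g} (V : Finset G.FP)
    (hi : ∀ f : G.A[X], Fam D m f → Irreducible (G.fK f)) :
    ∃ Φ : {f : G.A[X] // Fam D m f ∧ RepV G g m C V r f} ×
        {h : Matrix (Fin (2 * g + 1)) (Fin (2 * g + 1)) G.A // UtM G (fh g r) h} ×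
        {s : G.A // (s : K) ∈ G.M (2 * m)} →
      {p : Matrix (Fin (2 * g + 1)) (Fin (2 * g + 1)) G.A ×
        Matrix (Fin (2 * g + 1)) (Fin (2 * g + 1)) G.A //
          DegP G g m C r p.1 p.2 ∧ UndetG G V p.1 p.2}, Function.Injective Φ := by
  have hch : ∀ f : {f : G.A[X] // Fam D m f ∧ RepV G g m C V r f},
      ∃ G1 G2, DegP G g m C r G1 G2 ∧ pen G1 G2 = Polynomial.C G1.det * f.1 ∧
        UndetG G V G1 G2 := fun f => f.2.2
  choose G1 G2 hR hP hU using hch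
  refine ⟨fun x => ⟨(x.2.1.1 * G1 x.1 * x.2.1.1.transpose,
    x.2.1.1 * G2 x.1 * x.2.1.1.transpose - x.2.2.1 • (x.2.1.1 * G1 x.1 * x.2.1.1.transpose)),
    act_degP G (hR x.1) x.2.1.2 x.2.2.2, act_undet G x.2.1.2.toUt x.2.2.1 (hU x.1)⟩, ?_⟩
  rintro ⟨f, h, s⟩ ⟨f', h', s'⟩ he
  simp only [Subtype.mk.injEq, Prod.mk.injEq] at he
  obtain ⟨h1, h2⟩ := he
  obtain ⟨hs, hf⟩ := act_inj₁ (repm_nA G hn) f.2.1.monic f.2.1.deg f.2.1.tr f'.2.1.monic f'.2.1.deg
    f'.2.1.tr (repm_det G (hR f)) (hP f) (hP f') h.2.toUt h'.2.toUt h1 h2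
  obtain rfl : s = s' := Subtype.ext hs
  obtain rfl : f = f' := Subtype.ext hf
  have h3 := act_inj₂ (K := K) (FaithfulSMul.algebraMap_injective G.A K) (hi f.1 f.2.1)
    (repm_det G (hR f)) (hP f) h.2.toUt h'.2.toUt h1
    (by rw [h1] at h2; exact sub_left_inj.1 h2)
  obtain rfl : h = h' := Subtype.ext h3
  rfl

private theorem repm_one {n : ℕ} (e : Fin n → Fin n → ℤ) :
    UtM G e (1 : Matrix (Fin n) (Fin n) G.A) where
  diag i := Matrix.one_apply_eq i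
  up i j h := Matrix.one_apply_ne h.ne
  low i j h := by
    rw [Matrix.one_apply_ne h.ne']
    exact (G.M (e i j)).zero_mem

private theorem repm_sumLe {n : ℕ} (d : ℕ) (e : Fin n → Fin n → ℕ) :
    sumLe (fun i j => d * e i j) = d * sumLe e := by
  unfold sumLe
  rw [Finset.mul_sum]
  refine Finset.sum_congr rfl fun i _ => ?_
  rw [Finset.mul_sum]
  refine Finset.sum_congr rfl fun j _ => ?_
  split_ifs
  · rfl
  · rw [mul_zero]

private theorem repm_sumLt {n : ℕ} (d : ℕ) (e : Fin n → Fin n → ℕ) :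
    sumLt (fun i j => d * e i j) = d * sumLt e := by
  unfold sumLt
  rw [Finset.mul_sum]
  refine Finset.sum_congr rfl fun i _ => ?_
  rw [Finset.mul_sum]
  refine Finset.sum_congr rfl fun j _ => ?_
  split_ifs
  · rfl
  · rw [mul_zero]

private theorem repm_final {g N Q A B E ρ c c' : ℕ} (hq : 0 < Q) (h1 : c * N * Q ^ B ≤ c' * Q ^ A)
    (h2 : g * A + ρ ≤ g * (B + E)) : (c * N) ^ g * Q ^ ρ ≤ (c' * Q ^ E) ^ g := by
  refine Nat.le_of_mul_le_mul_left (c := Q ^ (g * B)) ?_ (pow_pos hq _)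
  calc Q ^ (g * B) * ((c * N) ^ g * Q ^ ρ) = (c * N * Q ^ B) ^ g * Q ^ ρ := by
        rw [mul_pow _ (Q ^ B), ← pow_mul, mul_comm B g]; ring
    _ ≤ (c' * Q ^ A) ^ g * Q ^ ρ := Nat.mul_le_mul_right _ (Nat.pow_le_pow_left h1 g)
    _ = c' ^ g * Q ^ (g * A + ρ) := by
        rw [mul_pow, ← pow_mul Q, mul_comm A g, pow_add, mul_assoc]
    _ ≤ c' ^ g * Q ^ (g * (B + E)) := Nat.mul_le_mul_left _ (Nat.pow_le_pow_right hq h2)
    _ = Q ^ (g * B) * (c' * Q ^ E) ^ g := by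
        rw [mul_pow, mul_add, pow_add, ← pow_mul Q, mul_comm E g]; ring

theorem finite_repM [Finite k] {g : ℕ} (hn : ((2 * g + 1 : ℕ) : k) ≠ 0) {C m : ℕ} {r : ℕ → ℕ}
    {D : Data G g} (V : Finset G.FP)
    (hi : ∀ f : G.A[X], Fam D m f → Irreducible (G.fK f)) :
    Finite {f : G.A[X] // Fam D m f ∧ RepV G g m C V r f} := by
  obtain ⟨Φ, hΦ⟩ := repm_inj G (C := C) (m := m) (r := r) hn (D := D) V hi
  have := finite_pairsM G (g := g) (m := m) (C := C) (r := r) V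
  refine Finite.of_injective (fun f => Φ (f, ⟨1, repm_one G _⟩, ⟨0, ?_⟩)) ?_
  · exact (G.M (2 * m)).zero_mem
  · intro f f' h
    exact (Prod.mk.inj (hΦ h)).1

theorem card_repM_mul [Finite k] {g : ℕ} (hn : ((2 * g + 1 : ℕ) : k) ≠ 0) {C m : ℕ} {r : ℕ → ℕ}
    {D : Data G g} (V : Finset G.FP)
    (hi : ∀ f : G.A[X], Fam D m f → Irreducible (G.fK f)) :
    Nat.card {f : G.A[X] // Fam D m f ∧ RepV G g m C V r f} *
      (Nat.card {h : Matrix (Fin (2 * g + 1)) (Fin (2 * g + 1)) G.A // UtM G (fh g r) h} *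
        Nat.card {s : G.A // (s : K) ∈ G.M (2 * m)}) ≤
      Nat.card {p : Matrix (Fin (2 * g + 1)) (Fin (2 * g + 1)) G.A ×
        Matrix (Fin (2 * g + 1)) (Fin (2 * g + 1)) G.A //
          DegP G g m C r p.1 p.2 ∧ UndetG G V p.1 p.2} := by
  obtain ⟨Φ, hΦ⟩ := repm_inj G (C := C) (m := m) (r := r) hn (D := D) V hi
  have := finite_pairsM G (g := g) (m := m) (C := C) (r := r) V
  have h := Nat.card_le_card_of_injective Φ hΦ
  rw [Nat.card_prod, Nat.card_prod] at h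
  exact h

theorem card_repM_le [Finite k] {g : ℕ} (h2 : (2 : k) ≠ 0) (hg : 1 ≤ g)
    (hn : ((2 * g + 1 : ℕ) : k) ≠ 0) (C : ℕ) : ∃ K₁ : ℕ, ∀ (V : Finset G.FP) (m : ℕ) (D : Data G g),
      (∀ f : G.A[X], Fam D m f → Irreducible (G.fK f)) → ∀ r : ℕ → ℕ, Typ g (m + C) r →
        Nat.card {f : G.A[X] // Fam D m f ∧ RepV G g m C V r f} ^ g *
            (Nat.card k ^ G.d) ^ (∑ b ∈ Finset.Icc 1 g, r b) ≤
          ((Nat.card k ^ G.d) ^ (K₁ + m * (4 * g ^ 2 + 6 * g))) ^ g ∧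
        (2 * r g + ∑ w ∈ V, w.1.degree ≤ 2 * m →
          ((32 * g) ^ V.card * Nat.card {f : G.A[X] // Fam D m f ∧ RepV G g m C V r f}) ^ g *
              (Nat.card k ^ G.d) ^ (∑ b ∈ Finset.Icc 1 g, r b) ≤
            ((32 * g - 1) ^ V.card * (Nat.card k ^ G.d) ^ (K₁ + m * (4 * g ^ 2 + 6 * g))) ^ g) := by
  obtain ⟨C₀, hC₀⟩ := card_elM_ge G
  obtain ⟨K₁, hK⟩ := expsM g C C₀ hg
  refine ⟨K₁, fun V m D hi r hr => ?_⟩
  have hq : 0 < Nat.card k := Nat.card_pos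
  have hQ : 0 < Nat.card k ^ G.d := pow_pos hq _
  have hex := hK m r hr
  have hmul := card_repM_mul G hn (C := C) (r := r) V hi
  have hU := card_utM_ge G hC₀ (fh g r)
  have hS := hC₀ (2 * (m : ℤ))
  rw [repm_sumLt] at hU
  set N := Nat.card {f : G.A[X] // Fam D m f ∧ RepV G g m C V r f} with hN
  set A := sumLe (fun i j => (f1 g C r i j + 1).toNat) + sumLe (fun i j => (f2 g m C r i j + 1).toNat)
    with hA
  set B := sumLt (fun i j => (fh g r i j - C₀).toNat) + (2 * (m : ℤ) - C₀).toNat with hB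
  have hex' : g * A + ∑ b ∈ Finset.Icc 1 g, r b ≤ g * (B + (K₁ + m * (4 * g ^ 2 + 6 * g))) := by
    rw [← add_assoc]
    exact hex
  have hlow : N * (Nat.card k ^ G.d) ^ B ≤
      Nat.card {p : Matrix (Fin (2 * g + 1)) (Fin (2 * g + 1)) G.A ×
        Matrix (Fin (2 * g + 1)) (Fin (2 * g + 1)) G.A //
          DegP G g m C r p.1 p.2 ∧ UndetG G V p.1 p.2} := by
    refine le_trans (Nat.mul_le_mul_left _ ?_) hmul
    refine le_trans (le_of_eq ?_) (Nat.mul_le_mul hU hS)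
    rw [hB, pow_add, ← pow_mul, ← pow_mul]
  have hup : Nat.card k ^ (sumLe (fun i j => G.d * (f1 g C r i j + 1).toNat) +
        sumLe (fun i j => G.d * (f2 g m C r i j + 1).toNat)) = (Nat.card k ^ G.d) ^ A := by
    rw [repm_sumLe, repm_sumLe, hA, ← pow_mul, mul_add]
  refine ⟨?_, fun hV => ?_⟩
  · have h3 := hlow.trans (pairs_card_leM G V)
    rw [hup] at h3
    have h4 := repm_final (c := 1) (c' := 1) hQ (by simpa using h3) hex'
    simpa using h4
  · have he : ∀ i j, ((∑ w ∈ V, w.1.degree : ℕ) : ℤ) ≤ G.d * (f2 g m C r i j + 1) := by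
      intro i j
      have h5 := f2_ge hr i j
      have h6 : ((2 * r g + ∑ w ∈ V, w.1.degree : ℕ) : ℤ) ≤ ((2 * m : ℕ) : ℤ) := Nat.cast_le.2 hV
      rw [Nat.cast_add, Nat.cast_mul, Nat.cast_mul, Nat.cast_ofNat] at h6
      have h7 : (1 : ℤ) ≤ G.d := by exact_mod_cast G.d_pos
      have h8 : (0 : ℤ) ≤ ((∑ w ∈ V, w.1.degree : ℕ) : ℤ) := Int.natCast_nonneg _
      have h9 : ((∑ w ∈ V, w.1.degree : ℕ) : ℤ) ≤ f2 g m C r i j + 1 := by linarith
      nlinarith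
    have h3 := undet_cardM G (g := g) (m := m) (C := C) (r := r) h2 hg V he
    rw [hup] at h3
    have h4 : (32 * g) ^ V.card * N * (Nat.card k ^ G.d) ^ B ≤
        (32 * g - 1) ^ V.card * (Nat.card k ^ G.d) ^ A := by
      rw [mul_assoc]
      exact (Nat.mul_le_mul_left _ hlow).trans h3
    exact repm_final hQ h4 hex'

end Pool.Agent.GBC
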