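import Pool.Agent.Lib.GBC.C.CrtM
import Pool.Agent.Lib.HYP.C.Sym

/-!
Module C.SymM of GBC. Symmetric and lower unitriangular matrices over `A`: numbers.

ADAPTATION of `Pool/Agent/Lib/HYP/C/Sym.lean` (the same with `card_vecM_le`, `card_vecM_ge`, `crt_vecM` in
place of `card_vec`, `crt_vec`): a symmetric matrix is a function on the pairs `i ≤ j`, a lower
unitriangular matrix a function on the pairs `j < i`; copy the private definitions and lemmas `SLe`,
`SLt`, `sum_sle`, `sum_slt`, `card_sle`, `symMk`, `symEquiv`, `uniMk`, … of that file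
(`sumLe_const`, `card_sym` are public there). For the upper bounds an injection is enough: a symmetric
matrix is determined by its entries `i ≤ j` (no symmetry of `e` is needed, only the conditions
`i ≤ j` are used).
-/

set_option autoImplicit false

open Polynomial

namespace Pool.Agent.GBC

open Pool.Agent.BSDP Pool.Agent.BSDFF Pool.Agent.HYP

variable {n : ℕ}

/-- the pairs `i ≤ j` -/
private abbrev SymM_SLe (n : ℕ) : Type := {p : Fin n × Fin n // p.1 ≤ p.2}

/-- the pairs `j < i` -/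
private abbrev SymM_SLt (n : ℕ) : Type := {p : Fin n × Fin n // p.2 < p.1}

private theorem SymM_sum_sle (e : Fin n → Fin n → ℕ) :
    ∑ p : SymM_SLe n, e p.1.1 p.1.2 = sumLe e := by
  unfold sumLe
  rw [← Fintype.sum_prod_type' (f := fun i j => if i ≤ j then e i j else 0)]
  rw [← Finset.sum_filter (fun p : Fin n × Fin n => p.1 ≤ p.2) (fun p => e p.1 p.2)]
  exact (Finset.sum_subtype _ (by simp) (fun p : Fin n × Fin n => e p.1 p.2)).symm

private theorem SymM_sum_slt (e : Fin n → Fin n → ℕ) :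
    ∑ p : SymM_SLt n, e p.1.1 p.1.2 = sumLt e := by
  unfold sumLt
  rw [← Fintype.sum_prod_type' (f := fun i j => if j < i then e i j else 0)]
  rw [← Finset.sum_filter (fun p : Fin n × Fin n => p.2 < p.1) (fun p => e p.1 p.2)]
  exact (Finset.sum_subtype _ (by simp) (fun p : Fin n × Fin n => e p.1 p.2)).symm

private theorem SymM_card_sle : Fintype.card (SymM_SLe n) = n * (n + 1) / 2 := by
  have h1 := SymM_sum_sle (n := n) (fun _ _ => 1)
  rw [sumLe_const, one_mul] at h1
  rw [← h1]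
  simp

/-- the symmetric matrix of a function on the pairs -/
private def SymM_symMk {S : Type} (v : SymM_SLe n → S) : Matrix (Fin n) (Fin n) S :=
  fun i j => if h : i ≤ j then v ⟨(i, j), h⟩ else v ⟨(j, i), le_of_not_ge h⟩

private theorem SymM_symMk_le {S : Type} (v : SymM_SLe n → S) {i j : Fin n} (h : i ≤ j) :
    SymM_symMk v i j = v ⟨(i, j), h⟩ := dif_pos h

private theorem SymM_symMk_symm {S : Type} (v : SymM_SLe n → S) (i j : Fin n) :
    SymM_symMk v i j = SymM_symMk v j i := by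
  rcases lt_trichotomy i j with h | h | h
  · rw [SymM_symMk_le v h.le]
    unfold SymM_symMk
    rw [dif_neg (not_le.2 h)]
  · rw [h]
  · rw [SymM_symMk_le v h.le]
    unfold SymM_symMk
    rw [dif_neg (not_le.2 h)]

private theorem SymM_symMk_transpose {S : Type} (v : SymM_SLe n → S) :
    (SymM_symMk v).transpose = SymM_symMk v := by
  funext i j
  exact SymM_symMk_symm v j i

private theorem SymM_symMk_of {S : Type} (G : Matrix (Fin n) (Fin n) S) (hG : G.transpose = G) :
    SymM_symMk (fun p : SymM_SLe n => G p.1.1 p.1.2) = G := by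
  funext i j
  unfold SymM_symMk
  split_ifs with h
  · rfl
  · exact congrFun (congrFun hG i) j

/-- symmetric matrices are functions on the pairs -/
private def SymM_symEquiv {S : Type} (Q : Matrix (Fin n) (Fin n) S → Prop) :
    {G : Matrix (Fin n) (Fin n) S // G.transpose = G ∧ Q G} ≃
      {v : SymM_SLe n → S // Q (SymM_symMk v)} where
  toFun G := ⟨fun p => G.1 p.1.1 p.1.2, by rw [SymM_symMk_of G.1 G.2.1]; exact G.2.2⟩
  invFun v := ⟨SymM_symMk v.1, SymM_symMk_transpose v.1, v.2⟩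
  left_inv G := Subtype.ext (SymM_symMk_of G.1 G.2.1)
  right_inv v := by
    refine Subtype.ext (funext fun p => ?_)
    exact SymM_symMk_le v.1 p.2

/-- the unitriangular matrix of a function on the pairs -/
private noncomputable def SymM_uniMk {R : Type} [CommRing R] (v : SymM_SLt n → R) :
    Matrix (Fin n) (Fin n) R :=
  fun i j => if h : j < i then v ⟨(i, j), h⟩ else if i = j then 1 else 0

private theorem SymM_uniMk_lt {R : Type} [CommRing R] (v : SymM_SLt n → R) {i j : Fin n}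
    (h : j < i) : SymM_uniMk v i j = v ⟨(i, j), h⟩ := dif_pos h

variable {k K : Type} [Field k] [Field K] [Algebra k K] (G : Geo k K) {n : ℕ}

theorem finite_symM [Finite k] (e : Fin n → Fin n → ℤ) :
    Finite {S : Matrix (Fin n) (Fin n) G.A // S.transpose = S ∧ ∀ i j, (S i j : K) ∈ G.M (e i j)} := by
  have := finite_vecM G (fun p : SymM_SLe n => e p.1.1 p.1.2)
  refine Finite.of_injective
    (β := {v : SymM_SLe n → G.A // ∀ p, (v p : K) ∈ G.M (e p.1.1 p.1.2)})
    (fun S => ⟨fun p => S.1 p.1.1 p.1.2, fun p => S.2.2 _ _⟩) ?_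
  intro S T h
  refine Subtype.ext ?_
  rw [← SymM_symMk_of S.1 S.2.1, ← SymM_symMk_of T.1 T.2.1]
  exact congrArg SymM_symMk (congrArg Subtype.val h)

private theorem SymM_card_le_vec [Finite k] (e : Fin n → Fin n → ℤ) :
    Nat.card {S : Matrix (Fin n) (Fin n) G.A // S.transpose = S ∧
      ∀ i j, (S i j : K) ∈ G.M (e i j)} ≤
    Nat.card {v : SymM_SLe n → G.A // ∀ p, (v p : K) ∈ G.M (e p.1.1 p.1.2)} := by
  have : Finite {v : SymM_SLe n → G.A // ∀ p, (v p : K) ∈ G.M (e p.1.1 p.1.2)} :=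
    finite_vecM G (fun p : SymM_SLe n => e p.1.1 p.1.2)
  let F : {S : Matrix (Fin n) (Fin n) G.A // S.transpose = S ∧
      ∀ i j, (S i j : K) ∈ G.M (e i j)} →
      {v : SymM_SLe n → G.A // ∀ p, (v p : K) ∈ G.M (e p.1.1 p.1.2)} :=
    fun S => ⟨fun p => S.1 p.1.1 p.1.2, fun p => S.2.2 p.1.1 p.1.2⟩
  have hF : Function.Injective F := by
    intro S T h
    refine Subtype.ext ?_
    rw [← SymM_symMk_of S.1 S.2.1, ← SymM_symMk_of T.1 T.2.1]
    exact congrArg SymM_symMk (congrArg Subtype.val h)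
  exact Nat.card_le_card_of_injective F hF

theorem card_symM_le [Finite k] (e : Fin n → Fin n → ℤ) :
    Nat.card {S : Matrix (Fin n) (Fin n) G.A // S.transpose = S ∧
      ∀ i j, (S i j : K) ∈ G.M (e i j)} ≤
      Nat.card k ^ sumLe (fun i j => G.d * (e i j + 1).toNat) := by
  have h0 := card_vecM_le G (fun p : SymM_SLe n => e p.1.1 p.1.2)
  have h1 : (∑ p : SymM_SLe n, G.d * (e p.1.1 p.1.2 + 1).toNat) =
      sumLe (fun i j => G.d * (e i j + 1).toNat) :=
    SymM_sum_sle (n := n) (fun i j => G.d * (e i j + 1).toNat)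
  have h2 : Nat.card k ^ (∑ p : SymM_SLe n, G.d * (e p.1.1 p.1.2 + 1).toNat) =
      Nat.card k ^ sumLe (fun i j => G.d * (e i j + 1).toNat) := congrArg _ h1
  exact ((SymM_card_le_vec G e).trans h0).trans_eq h2

theorem finite_utM [Finite k] (e : Fin n → Fin n → ℤ) :
    Finite {h : Matrix (Fin n) (Fin n) G.A // UtM G e h} := by
  have := finite_vecM G (fun p : SymM_SLt n => e p.1.1 p.1.2)
  refine Finite.of_injective
    (β := {v : SymM_SLt n → G.A // ∀ p, (v p : K) ∈ G.M (e p.1.1 p.1.2)})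
    (fun h => ⟨fun p => h.1 p.1.1 p.1.2, fun p => h.2.low _ _ p.2⟩) ?_
  intro S T h
  refine Subtype.ext ?_
  funext i j
  rcases lt_trichotomy i j with hij | hij | hij
  · rw [S.2.up i j hij, T.2.up i j hij]
  · subst hij
    rw [S.2.diag i, T.2.diag i]
  · exact congrFun (congrArg Subtype.val h) ⟨(i, j), hij⟩

private theorem SymM_vec_le_card [Finite k] (e : Fin n → Fin n → ℤ) :
    Nat.card {v : SymM_SLt n → G.A // ∀ p, (v p : K) ∈ G.M (e p.1.1 p.1.2)} ≤
      Nat.card {h : Matrix (Fin n) (Fin n) G.A // UtM G e h} := by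
  have : Finite {h : Matrix (Fin n) (Fin n) G.A // UtM G e h} := finite_utM G e
  have hU : ∀ v : {v : SymM_SLt n → G.A // ∀ p, (v p : K) ∈ G.M (e p.1.1 p.1.2)},
      UtM G e (SymM_uniMk v.1) := fun v => ⟨⟨fun i => by
        unfold SymM_uniMk
        rw [dif_neg (lt_irrefl _), if_pos rfl], fun i j hij => by
        unfold SymM_uniMk
        rw [dif_neg (not_lt.2 hij.le), if_neg hij.ne]⟩, fun i j hij => by
        rw [SymM_uniMk_lt v.1 hij]
        exact v.2 ⟨(i, j), hij⟩⟩
  refine Nat.card_le_card_of_injective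
    (β := {h : Matrix (Fin n) (Fin n) G.A // UtM G e h})
    (fun v => ⟨SymM_uniMk v.1, hU v⟩) ?_
  intro v w hvw
  refine Subtype.ext (funext fun p => ?_)
  have h1 := congrFun (congrFun (congrArg Subtype.val hvw) p.1.1) p.1.2
  have h2 : SymM_uniMk v.1 p.1.1 p.1.2 = SymM_uniMk w.1 p.1.1 p.1.2 := h1
  rw [SymM_uniMk_lt v.1 p.2, SymM_uniMk_lt w.1 p.2] at h2
  exact h2

theorem card_utM_ge [Finite k] {C₀ : ℕ}
    (h : ∀ y : ℤ, Nat.card k ^ (G.d * (y - C₀).toNat) ≤ Nat.card {a : G.A // (a : K) ∈ G.M y})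
    (e : Fin n → Fin n → ℤ) :
    Nat.card k ^ sumLt (fun i j => G.d * (e i j - C₀).toNat) ≤
      Nat.card {h : Matrix (Fin n) (Fin n) G.A // UtM G e h} := by
  have h0 := card_vecM_ge G h (fun p : SymM_SLt n => e p.1.1 p.1.2)
  have h1 : (∑ p : SymM_SLt n, G.d * (e p.1.1 p.1.2 - C₀).toNat) =
      sumLt (fun i j => G.d * (e i j - C₀).toNat) :=
    SymM_sum_slt (n := n) (fun i j => G.d * (e i j - C₀).toNat)
  have h2 : Nat.card k ^ sumLt (fun i j => G.d * (e i j - C₀).toNat) =
      Nat.card k ^ (∑ p : SymM_SLt n, G.d * (e p.1.1 p.1.2 - C₀).toNat) := congrArg _ h1.symm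
  exact (h2.trans_le h0).trans (SymM_vec_le_card G e)

theorem crt_symM [Finite k] (V : Finset G.FP)
    (P : ∀ w : G.FP, Matrix (Fin n) (Fin n) (G.κ w) → Prop) (a b : ℕ)
    (hP : ∀ w ∈ V, b * Nat.card {S : Matrix (Fin n) (Fin n) (G.κ w) // S.transpose = S ∧ P w S} ≤
      a * Nat.card (G.κ w) ^ (n * (n + 1) / 2))
    (e : Fin n → Fin n → ℤ)
    (he : ∀ i j, ((∑ w ∈ V, w.1.degree : ℕ) : ℤ) ≤ G.d * (e i j + 1)) :
    b ^ V.card * Nat.card {S : Matrix (Fin n) (Fin n) G.A // S.transpose = S ∧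
      (∀ i j, (S i j : K) ∈ G.M (e i j)) ∧ ∀ w ∈ V, P w (S.map (G.res w))} ≤
      a ^ V.card * Nat.card k ^ sumLe (fun i j => G.d * (e i j + 1).toNat) := by
  have h1 := crt_vecM G (ι := SymM_SLe n) V (fun w v => P w (SymM_symMk v)) a b
    (fun w hw => by
      rw [SymM_card_sle, ← Nat.card_congr (SymM_symEquiv fun S => P w S)]
      exact hP w hw)
    (fun p => e p.1.1 p.1.2) (fun p => he _ _)
  rw [SymM_sum_sle (fun i j => G.d * (e i j + 1).toNat)] at h1
  refine le_trans (Nat.mul_le_mul_left _ ?_) h1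
  have hfin := finite_vecM G (fun p : SymM_SLe n => e p.1.1 p.1.2)
  have hfin2 : Finite {v : SymM_SLe n → G.A // (∀ p, (v p : K) ∈ G.M (e p.1.1 p.1.2)) ∧
      ∀ w ∈ V, P w (SymM_symMk fun p => G.res w (v p))} :=
    Finite.of_injective
      (β := {v : SymM_SLe n → G.A // ∀ p, (v p : K) ∈ G.M (e p.1.1 p.1.2)})
      (fun v => ⟨v.1, v.2.1⟩) (by
        intro v w h
        have h3 := congrArg Subtype.val h
        exact Subtype.ext h3)
  refine Nat.card_le_card_of_injective
    (β := {v : SymM_SLe n → G.A // (∀ p, (v p : K) ∈ G.M (e p.1.1 p.1.2)) ∧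
      ∀ w ∈ V, P w (SymM_symMk fun p => G.res w (v p))})
    (fun S => ⟨fun p => S.1 p.1.1 p.1.2, fun p => S.2.2.1 _ _, fun w hw => by
      have h2 := S.2.2.2 w hw
      have h3 : (S.1.map (G.res w)).transpose = S.1.map (G.res w) := by
        rw [← Matrix.transpose_map, S.2.1]
      rw [← SymM_symMk_of _ h3] at h2
      exact h2⟩) ?_
  intro S T h
  refine Subtype.ext ?_
  rw [← SymM_symMk_of S.1 S.2.1, ← SymM_symMk_of T.1 T.2.1]
  exact congrArg SymM_symMk (congrArg Subtype.val h)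

end Pool.Agent.GBC
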