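import Pool.Agent.Lib.GBC.C.RepM
import Pool.Agent.Lib.HYP.C.Total

/-!
Module C.TotalM of GBC. All types together: at most `ε (q ^ d) ^ (m (4 g ^ 2 + 6 g))` polynomials of the
family are represented by a pair which is undetected at all the places of `V`, if `V` is large and
`m` is large (depending on `V`).

ADAPTATION of `Pool/Agent/Lib/HYP/C/Total.lean` (`extT`, `extT_surj`, `sum_extT`, `finite_types`,
`sum_split` are public and used for `Typ g (m + C)`).
-/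

set_option autoImplicit false

open Polynomial

namespace Pool.Agent.GBC

open Pool.Agent.BSDP Pool.Agent.BSDFF Pool.Agent.HYP

variable {k K : Type} [Field k] [Field K] [Algebra k K] (G : Geo k K)

theorem card_le_sumM [Finite k] {g : ℕ} (hn : ((2 * g + 1 : ℕ) : k) ≠ 0) {C m : ℕ}
    {D : Data G g} (V : Finset G.FP)
    (hi : ∀ f : G.A[X], Fam D m f → Irreducible (G.fK f)) :
    Nat.card {f : G.A[X] // Fam D m f ∧ ∃ r, Typ g (m + C) r ∧ RepV G g m C V r f} ≤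
      ∑ r ∈ (finite_types g (m + C)).toFinset,
        Nat.card {f : G.A[X] // Fam D m f ∧ RepV G g m C V (extT r) f} := by
  have hfin : ∀ r : (finite_types g (m + C)).toFinset,
      Finite {f : G.A[X] // Fam D m f ∧ RepV G g m C V (extT r.1) f} := fun r =>
    finite_repM G hn V hi
  have hmem : ∀ r : ℕ → ℕ, Typ g (m + C) r →
      (fun b : Fin g => r (b.val + 1)) ∈ (finite_types g (m + C)).toFinset := by
    intro r hr
    rw [Set.Finite.mem_toFinset]
    change Typ g (m + C) (extT fun b : Fin g => r (b.val + 1))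
    rw [← extT_surj hr]
    exact hr
  let F : {f : G.A[X] // Fam D m f ∧ ∃ r, Typ g (m + C) r ∧ RepV G g m C V r f} →
      (Σ r : (finite_types g (m + C)).toFinset,
        {f : G.A[X] // Fam D m f ∧ RepV G g m C V (extT r.1) f}) := fun x =>
    ⟨⟨fun b : Fin g => x.2.2.choose (b.val + 1), hmem _ x.2.2.choose_spec.1⟩,
      ⟨x.1, x.2.1, by
        rw [← extT_surj x.2.2.choose_spec.1]
        exact x.2.2.choose_spec.2⟩⟩
  have hF : Function.Injective F := by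
    intro x x' h
    have h1 : (F x).2.1 = (F x').2.1 := by rw [h]
    exact Subtype.ext h1
  have h1 := Nat.card_le_card_of_injective F hF
  rw [Nat.card_sigma] at h1
  refine h1.trans (le_of_eq ?_)
  exact Finset.sum_coe_sort (finite_types g (m + C)).toFinset
    (fun r => Nat.card {f : G.A[X] // Fam D m f ∧ RepV G g m C V (extT r) f})

theorem total [Finite k] {g : ℕ} (h2 : (2 : k) ≠ 0) (hg : 1 ≤ g)
    (hn : ((2 * g + 1 : ℕ) : k) ≠ 0) (C : ℕ) {ε : ℝ} (hε : 0 < ε) :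
    ∃ n₀ : ℕ, ∀ V : Finset G.FP, n₀ ≤ V.card → ∃ m₀ : ℕ, ∀ m ≥ m₀, ∀ D : Data G g,
      (∀ f : G.A[X], Fam D m f → Irreducible (G.fK f)) →
      (Nat.card {f : G.A[X] // Fam D m f ∧ ∃ r, Typ g (m + C) r ∧ RepV G g m C V r f} : ℝ) ≤
        ε * (Nat.card k : ℝ) ^ (G.d * (m * (4 * g ^ 2 + 6 * g))) := by
  have hq1 : 1 < Nat.card k := Finite.one_lt_card
  have hd := G.d_pos
  obtain ⟨K₁, hK₁⟩ := card_repM_le G h2 hg hn C
  obtain ⟨q, hq⟩ : ∃ q : ℝ, q = ((Nat.card k ^ G.d : ℕ) : ℝ) := ⟨_, rfl⟩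
  have hq1' : 1 < q := by
    rw [hq]
    exact_mod_cast Nat.one_lt_pow hd.ne' hq1
  have hq0 : 0 < q := by linarith
  have hg0 : (0 : ℝ) < g := by exact_mod_cast hg
  obtain ⟨y, hydef⟩ : ∃ y : ℝ, y = q ^ (-(1 / (2 * (g : ℝ)))) := ⟨_, rfl⟩
  have hy0 : 0 < y := by rw [hydef]; exact Real.rpow_pos_of_pos hq0 _
  have hy1 : y < 1 := by
    rw [hydef]
    exact Real.rpow_lt_one_of_one_lt_of_neg hq1' (by
      have : 0 < 1 / (2 * (g : ℝ)) := by positivity
      linarith)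
  have hy : y ^ (2 * g) * q = 1 := by
    rw [hydef, ← Real.rpow_natCast, ← Real.rpow_mul hq0.le]
    have : -(1 / (2 * (g : ℝ))) * ((2 * g : ℕ) : ℝ) = -1 := by
      push_cast
      field_simp
    rw [this, Real.rpow_neg_one]
    exact inv_mul_cancel₀ hq0.ne'
  obtain ⟨S, hS⟩ : ∃ S : ℝ, S = (1 / (1 - y)) ^ g := ⟨_, rfl⟩
  have hS0 : 0 < S := by
    rw [hS]
    have : 0 < 1 - y := by linarith
    positivity
  obtain ⟨C₀, hC₀⟩ : ∃ C₀ : ℝ, C₀ = q ^ K₁ := ⟨_, rfl⟩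
  have hC0 : 0 < C₀ := by rw [hC₀]; positivity
  obtain ⟨a, ha⟩ : ∃ a : ℝ, a = ((32 * g - 1 : ℕ) : ℝ) := ⟨_, rfl⟩
  obtain ⟨b, hb⟩ : ∃ b : ℝ, b = ((32 * g : ℕ) : ℝ) := ⟨_, rfl⟩
  have ha0 : 0 ≤ a := by rw [ha]; exact Nat.cast_nonneg _
  have hb0 : 0 < b := by rw [hb]; exact_mod_cast (by omega : 0 < 32 * g)
  have hab : a < b := by rw [ha, hb]; exact_mod_cast (by omega : 32 * g - 1 < 32 * g)
  have hab0 : 0 ≤ a / b := div_nonneg ha0 hb0.le
  have hab1 : a / b < 1 := (div_lt_one hb0).2 hab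
  have hx : 0 < ε / (2 * C₀ * S) := by positivity
  obtain ⟨N, hN⟩ := exists_pow_lt_of_lt_one hx hab1
  obtain ⟨M₀, hM₀⟩ := exists_pow_lt_of_lt_one hx hy1
  refine ⟨N, fun V hNV => ⟨(∑ w ∈ V, w.1.degree) + M₀, fun m hm D hi => ?_⟩⟩
  obtain ⟨s, hs⟩ : ∃ s : ℕ, s = ∑ w ∈ V, w.1.degree := ⟨_, rfl⟩
  rw [← hs] at hm
  obtain ⟨K', hK⟩ : ∃ K' : ℝ, K' = q ^ (K₁ + m * (4 * g ^ 2 + 6 * g)) := ⟨_, rfl⟩
  have hK0 : 0 < K' := by rw [hK]; positivity
  have hKC : K' = C₀ * q ^ (m * (4 * g ^ 2 + 6 * g)) := by rw [hK, hC₀, pow_add]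
  obtain ⟨δ, hδ⟩ : ∃ δ : ℝ, δ = (a / b) ^ V.card := ⟨_, rfl⟩
  have hδ0 : 0 ≤ δ := by rw [hδ]; positivity
  have hmain := sum_split hg hq0 hy0 hy1 hy (finite_types g (m + C)).toFinset
    (fun r => (Nat.card {f : G.A[X] // Fam D m f ∧ RepV G g m C V (extT r) f} : ℝ)) (K := K')
    (δ := δ) (m - s) (fun r _ => Nat.cast_nonneg _) hK0.le hδ0 ?_ ?_
  · have h1 : (Nat.card {f : G.A[X] // Fam D m f ∧ ∃ r, Typ g (m + C) r ∧
        RepV G g m C V r f} : ℝ) ≤ K' * (δ + y ^ (m - s)) * (1 / (1 - y)) ^ g := by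
      refine le_trans ?_ hmain
      exact_mod_cast card_le_sumM G hn V hi
    have h2' : C₀ * S * δ ≤ ε / 2 := by
      have h3 : δ ≤ (a / b) ^ N := by
        rw [hδ]
        exact pow_le_pow_of_le_one hab0 hab1.le hNV
      have h4 : δ ≤ ε / (2 * C₀ * S) := h3.trans hN.le
      calc C₀ * S * δ ≤ C₀ * S * (ε / (2 * C₀ * S)) :=
            mul_le_mul_of_nonneg_left h4 (by positivity)
        _ = ε / 2 := by field_simp
    have h3' : C₀ * S * y ^ (m - s) ≤ ε / 2 := by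
      have h3 : y ^ (m - s) ≤ y ^ M₀ := pow_le_pow_of_le_one hy0.le hy1.le (by omega)
      have h4 : y ^ (m - s) ≤ ε / (2 * C₀ * S) := h3.trans hM₀.le
      calc C₀ * S * y ^ (m - s) ≤ C₀ * S * (ε / (2 * C₀ * S)) :=
            mul_le_mul_of_nonneg_left h4 (by positivity)
        _ = ε / 2 := by field_simp
    have hQ : 0 < q ^ (m * (4 * g ^ 2 + 6 * g)) := by positivity
    have h6 : (Nat.card k : ℝ) ^ (G.d * (m * (4 * g ^ 2 + 6 * g))) =
        q ^ (m * (4 * g ^ 2 + 6 * g)) := by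
      rw [hq, pow_mul]
      push_cast
      rfl
    rw [h6]
    calc (Nat.card {f : G.A[X] // Fam D m f ∧ ∃ r, Typ g (m + C) r ∧
            RepV G g m C V r f} : ℝ)
        ≤ K' * (δ + y ^ (m - s)) * (1 / (1 - y)) ^ g := h1
      _ = (C₀ * S * δ + C₀ * S * y ^ (m - s)) * q ^ (m * (4 * g ^ 2 + 6 * g)) := by
          rw [← hS, hKC]; ring
      _ ≤ (ε / 2 + ε / 2) * q ^ (m * (4 * g ^ 2 + 6 * g)) := by
          refine mul_le_mul_of_nonneg_right ?_ hQ.le
          linarith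
      _ = ε * q ^ (m * (4 * g ^ 2 + 6 * g)) := by ring
  · intro r hr
    have hr' : Typ g (m + C) (extT r) := (finite_types g (m + C)).mem_toFinset.1 hr
    have h1 := (hK₁ V m D hi (extT r) hr').1
    rw [sum_extT] at h1
    rw [hK, hq]
    exact_mod_cast h1
  · intro r hr hrM
    have hr' : Typ g (m + C) (extT r) := (finite_types g (m + C)).mem_toFinset.1 hr
    have h0 : 2 * extT r g + ∑ w ∈ V, w.1.degree ≤ 2 * m := by
      have : extT r g ≤ m - s := by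
        unfold extT
        rw [dif_pos ⟨hg, le_rfl⟩]
        exact hrM _
      rw [← hs]
      omega
    have h1 := (hK₁ V m D hi (extT r) hr').2 h0
    rw [sum_extT] at h1
    have h3 : (b ^ V.card * (Nat.card {f : G.A[X] // Fam D m f ∧
        RepV G g m C V (extT r) f} : ℝ)) ^ g * q ^ (∑ c, r c) ≤ (a ^ V.card * K') ^ g := by
      rw [ha, hb, hK, hq]
      exact_mod_cast h1
    have h4 : δ * K' = (a ^ V.card * K') / b ^ V.card := by
      rw [hδ, div_pow]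
      field_simp
    have hbV : 0 < b ^ V.card := by positivity
    rw [h4, div_pow, le_div_iff₀ (by positivity)]
    calc _ = (b ^ V.card * (Nat.card {f : G.A[X] // Fam D m f ∧
            RepV G g m C V (extT r) f} : ℝ)) ^ g * q ^ (∑ c, r c) := by
          rw [mul_pow (b ^ V.card)]; ring
      _ ≤ (a ^ V.card * K') ^ g := h3

end Pool.Agent.GBC
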