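import Pool.Agent.Lib.GBC.C.Defs
import Pool.Agent.Lib.GBC.Q.Ideal

/-!
Module C.VecM of GBC. The number of vectors over `A` with entries in given spaces `M (e i)`.

PROOF. `{a : A | a ∈ M y} = IL ⊤ y`, a finite dimensional space over `k` (`fin_IL`), with
`#k ^ finrank` elements (`Module.natCard_eq_pow_finrank`); `degI ⊤ = 0` (`A / ⊤` is trivial).
Upper bound: `finrank_IL_le` for `I = ⊤`: the dimension is `0` or at most `d (y + 1)`, so at most
`d (y + 1).toNat`. Lower bound: `finrank_IL_ge` gives a constant `C₀` with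
`d (y - C₀) ≤ dim IL ⊤ y`, so `d (y - C₀).toNat ≤ dim`. Vectors: a product (`Nat.card_pi`,
`Finset.prod_le_prod'`, `Finset.prod_pow_eq_pow_sum`; see `card_vec` in `HYP/C/Vec.lean`).
-/

set_option autoImplicit false

open Polynomial

namespace Pool.Agent.GBC

open Pool.Agent.BSDP Pool.Agent.BSDFF Pool.Agent.HYP

variable {k K : Type} [Field k] [Field K] [Algebra k K] (G : Geo k K)

theorem degI_top : G.degI ⊤ = 0 := by
  have : Subsingleton (G.A ⧸ (⊤ : Ideal G.A)) := Ideal.Quotient.subsingleton_iff.2 rfl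
  exact Module.finrank_zero_of_subsingleton

private def vecM_equiv (y : ℤ) : {a : G.A // (a : K) ∈ G.M y} ≃ G.IL ⊤ y where
  toFun a := ⟨a.1, trivial, a.2⟩
  invFun a := ⟨a.1, a.2.2⟩
  left_inv _ := rfl
  right_inv _ := rfl

theorem finite_elM [Finite k] (y : ℤ) : Finite {a : G.A // (a : K) ∈ G.M y} := by
  have := G.fin_IL ⊤ y
  have : Finite (G.IL ⊤ y) := Module.finite_of_finite k
  exact Finite.of_equiv _ (vecM_equiv G y).symm

private theorem vecM_card [Finite k] (y : ℤ) :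
    Nat.card {a : G.A // (a : K) ∈ G.M y} = Nat.card k ^ Module.finrank k (G.IL ⊤ y) := by
  have := G.fin_IL ⊤ y
  rw [Nat.card_congr (vecM_equiv G y)]
  exact Module.natCard_eq_pow_finrank

theorem card_elM_le [Finite k] (y : ℤ) :
    Nat.card {a : G.A // (a : K) ∈ G.M y} ≤ Nat.card k ^ (G.d * (y + 1).toNat) := by
  rw [vecM_card]
  refine Nat.pow_le_pow_right Nat.card_pos ?_
  have htop : (⊤ : Ideal G.A) ≠ ⊥ := top_ne_bot
  rcases G.finrank_IL_le htop y with h | h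
  · rw [h]
    exact Nat.zero_le _
  · rw [degI_top] at h
    have h2 : (0 : ℤ) ≤ G.d := by positivity
    have h3 : (y + 1) ≤ ((y + 1).toNat : ℤ) := Int.self_le_toNat _
    have h4 : (Module.finrank k (G.IL ⊤ y) : ℤ) ≤ G.d * ((y + 1).toNat : ℤ) := by
      push_cast at h
      nlinarith
    exact_mod_cast h4

theorem card_elM_ge [Finite k] : ∃ C₀ : ℕ, ∀ y : ℤ,
    Nat.card k ^ (G.d * (y - C₀).toNat) ≤ Nat.card {a : G.A // (a : K) ∈ G.M y} := by
  obtain ⟨C₀, hC⟩ := G.finrank_IL_ge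
  refine ⟨C₀, fun y => ?_⟩
  rw [vecM_card]
  refine Nat.pow_le_pow_right Nat.card_pos ?_
  have htop : (⊤ : Ideal G.A) ≠ ⊥ := top_ne_bot
  have h := hC ⊤ htop y
  rw [degI_top] at h
  rcases le_total 0 (y - C₀) with h1 | h1
  · have h2 : ((G.d * (y - C₀).toNat : ℕ) : ℤ) ≤ (Module.finrank k (G.IL ⊤ y) : ℤ) := by
      push_cast
      rw [Int.toNat_of_nonneg h1]
      push_cast at h
      linarith
    exact_mod_cast h2
  · rw [Int.toNat_of_nonpos h1, mul_zero]
    exact Nat.zero_le _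

private def vecM_pi {ι : Type} (e : ι → ℤ) :
    {v : ι → G.A // ∀ i, (v i : K) ∈ G.M (e i)} ≃ ∀ i, {a : G.A // (a : K) ∈ G.M (e i)} where
  toFun v i := ⟨v.1 i, v.2 i⟩
  invFun w := ⟨fun i => (w i).1, fun i => (w i).2⟩
  left_inv _ := rfl
  right_inv _ := rfl

theorem finite_vecM [Finite k] {ι : Type} [Fintype ι] (e : ι → ℤ) :
    Finite {v : ι → G.A // ∀ i, (v i : K) ∈ G.M (e i)} := by
  have := fun i => finite_elM G (e i)
  exact Finite.of_equiv _ (vecM_pi G e).symm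

theorem card_vecM_le [Finite k] {ι : Type} [Fintype ι] (e : ι → ℤ) :
    Nat.card {v : ι → G.A // ∀ i, (v i : K) ∈ G.M (e i)} ≤
      Nat.card k ^ (∑ i, G.d * (e i + 1).toNat) := by
  rw [Nat.card_congr (vecM_pi G e), Nat.card_pi, ← Finset.prod_pow_eq_pow_sum]
  exact Finset.prod_le_prod' fun i _ => card_elM_le G (e i)

theorem card_vecM_ge [Finite k] {C₀ : ℕ}
    (h : ∀ y : ℤ, Nat.card k ^ (G.d * (y - C₀).toNat) ≤ Nat.card {a : G.A // (a : K) ∈ G.M y})
    {ι : Type} [Fintype ι] (e : ι → ℤ) :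
    Nat.card k ^ (∑ i, G.d * (e i - C₀).toNat) ≤
      Nat.card {v : ι → G.A // ∀ i, (v i : K) ∈ G.M (e i)} := by
  rw [Nat.card_congr (vecM_pi G e), Nat.card_pi, ← Finset.prod_pow_eq_pow_sum]
  exact Finset.prod_le_prod' fun i _ => h (e i)

end Pool.Agent.GBC
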